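import Pool.Agent.helper41.Cubic.Torus

set_option autoImplicit false

open Function Set Filter Topology

namespace Pool.Agent.helper41.Cubic

theorem bounded_of_periodic {X : ℝ → ℝ → ℝ} (cX : Continuous (uncurry X))
    (pX : ∀ x y : ℝ, X (x + 1) y = X x y ∧ X x (y + 1) = X x y) :
    ∃ C, ∀ x y, |X x y| ≤ C := by
  obtain ⟨C, hC⟩ := ((isCompact_Icc (a := (0 : ℝ)) (b := 1)).prod
    (isCompact_Icc (a := (0 : ℝ)) (b := 1))).exists_bound_of_continuousOn cX.continuousOn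
  refine ⟨C, fun x y => ?_⟩
  have p1 : Periodic (fun x => X x y) 1 := fun x => (pX x y).1
  obtain ⟨x', hx', e1⟩ := p1.exists_mem_Ico₀ one_pos x
  have p2 : Periodic (fun y => X x' y) 1 := fun y => (pX x' y).2
  obtain ⟨y', hy', e2⟩ := p2.exists_mem_Ico₀ one_pos y
  rw [e1, e2]
  exact hC (x', y') ⟨⟨hx'.1, hx'.2.le⟩, ⟨hy'.1, hy'.2.le⟩⟩

theorem const_of_cr {X Y : ℝ → ℝ → ℝ}
    (cX : ContDiff ℝ ((⊤ : ℕ∞) : WithTop ℕ∞) (uncurry X))
    (cY : ContDiff ℝ ((⊤ : ℕ∞) : WithTop ℕ∞) (uncurry Y))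
    (pX : ∀ x y : ℝ, X (x + 1) y = X x y ∧ X x (y + 1) = X x y)
    (pY : ∀ x y : ℝ, Y (x + 1) y = Y x y ∧ Y x (y + 1) = Y x y)
    (h1 : ∀ x y, D2 Y x y = D1 X x y + D1 Y x y) (h2 : ∀ x y, D2 X x y = - D1 Y x y) :
    ∀ x y, X x y = X 0 0 ∧ Y x y = Y 0 0 := by
  set s : ℝ := Real.sqrt 3 with hs
  have hs3 : s * s = 3 := Real.mul_self_sqrt (by norm_num)
  have hs0 : s ≠ 0 := by intro h; rw [h] at hs3; norm_num at hs3
  set ω : ℂ := (1 / 2 : ℝ) + (s / 2 : ℝ) * Complex.I with hω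
  -- linear change of variables
  set P : ℂ →L[ℝ] ℝ × ℝ := (Complex.reCLM - (1 / s) • Complex.imCLM).prod ((2 / s) • Complex.imCLM)
    with hP
  have P1 : P 1 = (1, 0) := by simp [hP]
  have PI : P Complex.I = (-(1 / s), 2 / s) := by simp [hP]
  set f : ℂ → ℂ := fun w => ((uncurry X (P w) : ℝ) : ℂ) + ((uncurry Y (P w) : ℝ) : ℂ) * ω with hf
  have dX : ∀ w, HasFDerivAt (fun w => ((uncurry X (P w) : ℝ) : ℂ))
      (Complex.ofRealCLM.comp ((fderiv ℝ (uncurry X) (P w)).comp P)) w := fun w =>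
    Complex.ofRealCLM.hasFDerivAt.comp w
      (((cX.differentiable (by simp) (P w)).hasFDerivAt).comp w P.hasFDerivAt)
  have dY : ∀ w, HasFDerivAt (fun w => ((uncurry Y (P w) : ℝ) : ℂ))
      (Complex.ofRealCLM.comp ((fderiv ℝ (uncurry Y) (P w)).comp P)) w := fun w =>
    Complex.ofRealCLM.hasFDerivAt.comp w
      (((cY.differentiable (by simp) (P w)).hasFDerivAt).comp w P.hasFDerivAt)
  have df : ∀ w, HasFDerivAt f ((Complex.ofRealCLM.comp ((fderiv ℝ (uncurry X) (P w)).comp P)) +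
      ω • (Complex.ofRealCLM.comp ((fderiv ℝ (uncurry Y) (P w)).comp P))) w := fun w =>
    (dX w).add ((dY w).mul_const ω)
  have hdiff : Differentiable ℂ f := by
    intro w
    rw [differentiableAt_complex_iff_differentiableAt_real]
    refine ⟨(df w).differentiableAt, ?_⟩
    rw [(df w).fderiv]
    obtain ⟨x, y, hxy⟩ : ∃ x y, P w = (x, y) := ⟨(P w).1, (P w).2, rfl⟩
    rw [hxy]
    have eX1 : fderiv ℝ (uncurry X) (x, y) (1, 0) = D1 X x y := rfl
    have eY1 : fderiv ℝ (uncurry Y) (x, y) (1, 0) = D1 Y x y := rfl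
    have hv : ((-(1 / s), 2 / s) : ℝ × ℝ) = (-(1 / s)) • ((1, 0) : ℝ × ℝ) + (2 / s) • ((0, 1) : ℝ × ℝ) := by
      ext <;> simp
    have eX2 : fderiv ℝ (uncurry X) (x, y) (-(1 / s), 2 / s) =
        -(1 / s) * D1 X x y + (2 / s) * D2 X x y := by
      rw [hv, map_add, map_smul, map_smul]; rfl
    have eY2 : fderiv ℝ (uncurry Y) (x, y) (-(1 / s), 2 / s) =
        -(1 / s) * D1 Y x y + (2 / s) * D2 Y x y := by
      rw [hv, map_add, map_smul, map_smul]; rfl
    simp only [ContinuousLinearMap.add_apply, ContinuousLinearMap.smul_apply,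
      ContinuousLinearMap.comp_apply, P1, PI, eX1, eY1, eX2, eY2, h1, h2, Complex.ofRealCLM_apply,
      smul_eq_mul]
    apply Complex.ext
    · simp [hω]
      field_simp
      have hs2 : s ^ 2 = 3 := by rw [pow_two]; exact hs3
      linear_combination (D1 Y x y) * hs2
    · simp [hω]
      field_simp
      ring
  obtain ⟨CX, hCX⟩ := bounded_of_periodic cX.continuous pX
  obtain ⟨CY, hCY⟩ := bounded_of_periodic cY.continuous pY
  have hbd : Bornology.IsBounded (range f) := by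
    rw [isBounded_iff_forall_norm_le]
    refine ⟨CX + CY * ‖ω‖, ?_⟩
    rintro _ ⟨w, rfl⟩
    refine (norm_add_le _ _).trans ?_
    rw [norm_mul, Complex.norm_real, Complex.norm_real]
    exact add_le_add (hCX _ _) (mul_le_mul_of_nonneg_right (hCY _ _) (norm_nonneg _))
  intro x y
  have key := hdiff.apply_eq_apply_of_bounded hbd ((x + y / 2 : ℝ) + (y * s / 2 : ℝ) * Complex.I) 0
  have e1 : P ((x + y / 2 : ℝ) + (y * s / 2 : ℝ) * Complex.I) = (x, y) := by
    simp only [hP, ContinuousLinearMap.prod_apply, ContinuousLinearMap.sub_apply,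
      ContinuousLinearMap.smul_apply, Complex.reCLM_apply, Complex.imCLM_apply, smul_eq_mul]
    ext
    · simp; field_simp; ring
    · simp; field_simp
  have e2 : P 0 = (0, 0) := by simp [hP]
  simp only [hf, e1, e2, uncurry] at key
  have im := congrArg Complex.im key
  have re := congrArg Complex.re key
  simp [hω] at im re
  have hY : Y x y = Y 0 0 := by
    rcases im with h | h
    · exact h
    · exact absurd h hs0
  rw [hY] at re
  exact ⟨by linarith, hY⟩

theorem kap_m_zero {m : ℝ} (hm : |m| ≤ 1 / 40) (h : kap m 0 = 1) : m = 0 := by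
  obtain ⟨m1, m2⟩ := abs_le.mp hm
  have e : n3 m 0 = (1 + 2 * m) ^ 3 := by unfold n3; ring
  have hpos : 0 < 1 + 2 * m := by linarith
  unfold kap at h
  rw [e] at h
  have e2 : ((1 + 2 * m) ^ 3) ^ ((2 : ℝ) / 3) = (1 + 2 * m) ^ 2 := by
    rw [← Real.rpow_natCast, ← Real.rpow_natCast, ← Real.rpow_mul hpos.le]
    norm_num
  rw [e2, div_eq_one_iff_eq (EE_pos m 0).ne'] at h
  unfold EE at h
  have h3 : m * (3 * (1 + m)) = 0 := by linear_combination h
  rcases mul_eq_zero.mp h3 with h4 | h4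
  · exact h4
  · exfalso; linarith

theorem kap_swap (m : ℝ) : kap 0 m = kap m 0 := by
  have := W_swap m
  rw [rotL_apply] at this
  exact congrArg Prod.fst this

/-- a function that is a nonconstant beam profile near a segment is not invariant -/
theorem beam_lemma {g : ℝ → ℝ → ℝ} (hg : Slope g) {u u1 u2 : ℝ → ℝ → ℝ}
    (d1 : ∀ x y, HasDerivAt (fun t => u t y) (u1 x y) x)
    (d2 : ∀ x y, HasDerivAt (fun t => u x t) (u2 x y) y)
    (hu : ∀ x y, |x - 3 / 4| < 1 / 24 → |y - 1 / 2| < 1 / 8 →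
      u x y = kap (g 6 (24 * (y - 1 / 2))) 0)
    {c1 c2 : ℝ} (hc : ∀ x y, c1 * u1 x y + c2 * u2 x y = 0) : c2 = 0 := by
  by_contra hne
  have k1 : ∀ t, |t| < 1 / 8 → u1 (3 / 4) (1 / 2 + t) = 0 := by
    intro t ht
    have e1 := d1 (3 / 4) (1 / 2 + t)
    have e2 : HasDerivAt (fun s => u s (1 / 2 + t)) 0 (3 / 4) := by
      have e3 : HasDerivAt (fun _ : ℝ => kap (g 6 (24 * t)) 0) 0 (3 / 4) := hasDerivAt_const _ _
      refine e3.congr_of_eventuallyEq ?_
      have : ∀ᶠ s in 𝓝 (3 / 4 : ℝ), |s - 3 / 4| < 1 / 24 := by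
        have hcont : Continuous (fun s : ℝ => |s - 3 / 4|) := by fun_prop
        exact hcont.continuousAt.eventually (gt_mem_nhds (by norm_num))
      filter_upwards [this] with s hs
      rw [hu s (1 / 2 + t) hs (by simpa using ht)]
      congr 3; ring
    exact e1.unique e2
  have k2 : ∀ t, |t| < 1 / 8 → u2 (3 / 4) (1 / 2 + t) = 0 := by
    intro t ht
    have e := hc (3 / 4) (1 / 2 + t)
    rw [k1 t ht, mul_zero, zero_add] at e
    exact (mul_eq_zero.mp e).resolve_left hne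
  have k3 : ∀ t ∈ Icc (-(1 / 12) : ℝ) (1 / 12), u (3 / 4) (1 / 2 + t) = u (3 / 4) (1 / 2 + -(1 / 12)) := by
    apply constant_of_has_deriv_right_zero
    · have : Continuous (fun t => u (3 / 4) (1 / 2 + t)) := by
        rw [continuous_iff_continuousAt]
        intro t
        have e := d2 (3 / 4) (1 / 2 + t)
        exact ContinuousAt.comp (g := fun s => u (3 / 4) s) (f := fun t => 1 / 2 + t) e.continuousAt
          (by fun_prop)
      exact this.continuousOn
    · intro t ht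
      have e := (d2 (3 / 4) (1 / 2 + t)).comp t ((hasDerivAt_id t).const_add (1 / 2))
      rw [k2 t (by rw [abs_lt]; constructor <;> linarith [ht.1, ht.2]), zero_mul] at e
      exact e.hasDerivWithinAt
  obtain ⟨y0, hy0⟩ := hg.ne
  have hy2 : |y0| < 2 := by
    by_contra hcon
    exact hy0 (hg.supp 2 y0 (not_lt.mp hcon))
  rw [abs_lt] at hy2
  have e1 := k3 (y0 / 24) ⟨by linarith, by linarith⟩
  rw [hu _ _ (by norm_num) (by rw [abs_lt]; constructor <;> linarith),
    hu _ _ (by norm_num) (by rw [abs_lt]; constructor <;> linarith)] at e1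
  have e2 : g 6 (24 * (1 / 2 + y0 / 24 - 1 / 2)) = g 2 y0 := by
    rw [show 24 * (1 / 2 + y0 / 24 - 1 / 2) = y0 by ring]
    exact hg.flat 6 2 y0 (by norm_num) (by norm_num)
  have e3 : g 6 (24 * (1 / 2 + -(1 / 12) - 1 / 2)) = 0 := by
    apply hg.supp
    rw [show (24 : ℝ) * (1 / 2 + -(1 / 12) - 1 / 2) = -2 by ring]
    norm_num
  rw [e2, e3] at e1
  have e4 : kap 0 0 = 1 := by simp [kap, EE, n3]
  rw [e4] at e1
  exact hy0 (kap_m_zero (hg.bound 2 y0) e1)

theorem fr_of_mem {x : ℝ} (h0 : 0 ≤ x) (h1 : x < 1) : fr x = x - 1 / 2 := by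
  unfold fr
  rw [Int.fract_eq_self.2 ⟨h0, h1⟩]

theorem EF_near {g : ℝ → ℝ → ℝ} {x y : ℝ} (hx : |x - 3 / 4| < 1 / 24)
    (hy : |y - 1 / 2| < 1 / 8) : EF g (x, y) = CF g (x - 1 / 2, y - 1 / 2) ∧
      EF g (y, x) = CF g (y - 1 / 2, x - 1 / 2) := by
  rw [abs_lt] at hx hy
  have hfr : fr (-x - y) = 3 / 2 - x - y := by
    have : fr (-x - y) = fr (2 - x - y) := by
      rw [show 2 - x - y = ((-x - y) + 1) + 1 by ring, fr_add_one, fr_add_one]
    rw [this, fr_of_mem (by linarith) (by linarith)]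
    ring
  have h3 : O3 (x, y) := by
    show 1 / 12 < |fr (-x - y)|
    rw [hfr, abs_of_pos (by linarith)]
    linarith
  have h3' : O3 (y, x) := by
    show 1 / 12 < |fr (-y - x)|
    rw [show -y - x = -x - y by ring, hfr, abs_of_pos (by linarith)]
    linarith
  refine ⟨?_, ?_⟩
  · rw [EF_3 h3, T3]
    simp only
    rw [fr_of_mem (by linarith) (by linarith), fr_of_mem (by linarith) (by linarith)]
  · rw [EF_3 h3', T3]
    simp only
    rw [fr_of_mem (by linarith) (by linarith), fr_of_mem (by linarith) (by linarith)]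

theorem EF_beam {g : ℝ → ℝ → ℝ} (hg : Slope g) {x y : ℝ} (hx : |x - 3 / 4| < 1 / 24)
    (hy : |y - 1 / 2| < 1 / 8) :
    (EF g (x, y)).1 = kap (g 6 (24 * (y - 1 / 2))) 0 ∧
    (EF g (y, x)).1 = kap (g 6 (24 * (y - 1 / 2))) 0 := by
  obtain ⟨e1, e2⟩ := EF_near (g := g) hx hy
  rw [e1, e2, CF_apply, CF_apply]
  rw [abs_lt] at hx
  have hx2 : 1 / 12 ≤ |x - 1 / 2| := by rw [abs_of_pos (by linarith)]; linarith
  have hf : g (24 * (x - 1 / 2)) (24 * (y - 1 / 2)) = g 6 (24 * (y - 1 / 2)) :=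
    hg.flat _ _ _ (by linarith) (by norm_num)
  rw [supp24 hg _ hx2, hf]
  exact ⟨rfl, kap_swap _⟩

end Pool.Agent.helper41.Cubic
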