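import Pool.Agent.helper41.Cubic.Net

set_option autoImplicit false

namespace Pool.Agent.helper41.Cubic

/-- denominators -/
def EE (m n : ℝ) : ℝ := (1 + m + m ^ 2) * (1 + n + n ^ 2)
/-- numerator of the first coefficient -/
def Mn (m n : ℝ) : ℝ := -3 * m * (1 + m + m * n)
/-- numerator of the second coefficient -/
def Nn (m n : ℝ) : ℝ := 3 * n * (1 + n + m * n)
/-- derivative of `EE` along a curve -/
def EE' (m n m' n' : ℝ) : ℝ := (m' + 2 * m * m') * (1 + n + n ^ 2) + (1 + m + m ^ 2) * (n' + 2 * n * n')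
/-- derivative of `Mn` along a curve -/
def Mn' (m n m' n' : ℝ) : ℝ := -3 * m' * (1 + m + m * n) + -3 * m * (m' + (m' * n + m * n'))
/-- derivative of `Nn` along a curve -/
def Nn' (m n m' n' : ℝ) : ℝ := 3 * n' * (1 + n + m * n) + 3 * n * (n' + (m' * n + m * n'))
/-- derivative of `n3` along a curve -/
def n3' (m n m' n' : ℝ) : ℝ :=
  3 * (1 + m * n + 2 * m + 2 * n) ^ 2 * (m' * n + m * n' + 2 * m' + 2 * n') -
        27 * ((m' * n + m * n') * ((1 + m) * (1 + n)) +
          m * n * (m' * (1 + n) + (1 + m) * n'))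

theorem core_Q (m n mx my nx ny p q : ℝ) :
    (1 - m * n) * (3 * n3 m n * ((2 * p - q) *
      ((Mn' m n mx nx * EE m n - Mn m n * EE' m n mx nx) * p +
       (Nn' m n mx nx * EE m n - Nn m n * EE' m n mx nx) * q) +
      (2 * q - p) *
      ((Mn' m n my ny * EE m n - Mn m n * EE' m n my ny) * p +
       (Nn' m n my ny * EE m n - Nn m n * EE' m n my ny) * q)) -
     (2 * n3' m n mx nx * EE m n - 3 * n3 m n * EE' m n mx nx) *
       ((2 * p * q - q ^ 2) * EE m n + Mn m n * (p ^ 2 - p * q + q ^ 2) +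
        (Mn m n * p + Nn m n * q) * (2 * p - q)) -
     (2 * n3' m n my ny * EE m n - 3 * n3 m n * EE' m n my ny) *
       ((p ^ 2 - 2 * p * q) * EE m n + Nn m n * (p ^ 2 - p * q + q ^ 2) +
        (Mn m n * p + Nn m n * q) * (2 * q - p))) =
    9 * (1 + n + n ^ 2) * (1 + 2 * n + 2 * m * n + m * n ^ 2) *
      (((2 * p - q) - m * (2 * q - p)) *
        ((1 + n + m * n) * (2 * p - q) + (1 + m + m * n) * (2 * q - p))) *
      (6 * m * (1 + m) * (1 + m + m ^ 2) * (nx + n * ny) -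
        (1 + m * n + 2 * m + 2 * n) * (1 + 2 * m + 2 * m * n + m ^ 2 * n) * (mx + n * my)) -
    9 * (1 + m + m ^ 2) * (1 + 2 * m + 2 * m * n + m ^ 2 * n) *
      (((2 * q - p) - n * (2 * p - q)) *
        ((1 + n + m * n) * (2 * p - q) + (1 + m + m * n) * (2 * q - p))) *
      (6 * n * (1 + n) * (1 + n + n ^ 2) * (m * mx + my) -
        (1 + m * n + 2 * m + 2 * n) * (1 + 2 * n + 2 * m * n + m * n ^ 2) * (m * nx + ny)) := by
  unfold n3 n3' EE EE' Mn Mn' Nn Nn'
  ring

end Pool.Agent.helper41.Cubic
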