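import Pool.Agent.helper41.Cubic.Par

set_option autoImplicit false

open Function Set Filter Topology

namespace Pool.Agent.helper41.Cubic

/-- two by two matrix as continuous linear map -/
noncomputable def mat (a b c d : ℝ) : ℝ × ℝ →L[ℝ] ℝ × ℝ := (dmat a b).prod (dmat c d)

@[simp] theorem mat_apply (a b c d : ℝ) (v : ℝ × ℝ) :
    mat a b c d v = (a * v.1 + b * v.2, c * v.1 + d * v.2) := by
  simp [mat]

/-- invertible two by two matrix -/
noncomputable def matEquiv (a b c d : ℝ) (h : a * d - b * c ≠ 0) : (ℝ × ℝ) ≃L[ℝ] (ℝ × ℝ) :=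
  ContinuousLinearEquiv.equivOfInverse (mat a b c d)
    (mat (d * (a * d - b * c)⁻¹) (-b * (a * d - b * c)⁻¹) (-c * (a * d - b * c)⁻¹)
      (a * (a * d - b * c)⁻¹))
    (by
      intro v
      have hi := mul_inv_cancel₀ h
      simp only [mat_apply]
      ext
      · simp only; linear_combination v.1 * hi
      · simp only; linear_combination v.2 * hi)
    (by
      intro v
      have hi := mul_inv_cancel₀ h
      simp only [mat_apply]
      ext
      · simp only; linear_combination v.1 * hi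
      · simp only; linear_combination v.2 * hi)

theorem matEquiv_coe (a b c d : ℝ) (h : a * d - b * c ≠ 0) :
    ((matEquiv a b c d h : (ℝ × ℝ) ≃L[ℝ] (ℝ × ℝ)) : ℝ × ℝ →L[ℝ] ℝ × ℝ) = mat a b c d := by
  ext <;> simp [matEquiv]

theorem global_inverse {X Xx Xy : ℝ → ℝ → ℝ}
    (cX : ContDiff ℝ ((⊤ : ℕ∞) : WithTop ℕ∞) (uncurry X))
    (h1 : ∀ x y, HasDerivAt (fun s => X s y) (Xx x y) x)
    (h2 : ∀ x y, HasDerivAt (fun s => X x s) (Xy x y) y)
    (c1 : Continuous (uncurry Xx)) (c2 : Continuous (uncurry Xy))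
    (b1 : ∀ x y, |Xx x y - 1| ≤ 1 / 4) (b2 : ∀ x y, |Xy x y| ≤ 1 / 8) :
    ∃ A : ℝ → ℝ → ℝ, ContDiff ℝ ((⊤ : ℕ∞) : WithTop ℕ∞) (uncurry A) ∧
      (∀ x y, A (X x y) (X y x) = x) ∧ (∀ P Q, X (A P Q) (A Q P) = P) := by
  set Φ : ℝ × ℝ → ℝ × ℝ := fun z => (X z.1 z.2, X z.2 z.1) with hΦ
  have cΦ : ContDiff ℝ ((⊤ : ℕ∞) : WithTop ℕ∞) Φ := by
    have e1 : ContDiff ℝ ((⊤ : ℕ∞) : WithTop ℕ∞) (fun z : ℝ × ℝ => X z.1 z.2) := cX
    have e2 : ContDiff ℝ ((⊤ : ℕ∞) : WithTop ℕ∞) (fun z : ℝ × ℝ => X z.2 z.1) :=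
      cX.comp (contDiff_snd.prodMk contDiff_fst)
    exact e1.prodMk e2
  have dΦ : ∀ z : ℝ × ℝ, HasFDerivAt Φ (mat (Xx z.1 z.2) (Xy z.1 z.2) (Xy z.2 z.1) (Xx z.2 z.1)) z := by
    intro z
    have e1 := hasFDerivAt_of_coord h1 h2 c1 c2 z
    have e2 : HasFDerivAt (uncurry fun x y => X y x) (dmat (Xy z.2 z.1) (Xx z.2 z.1)) z := by
      have c1' : Continuous (uncurry fun x y => Xx y x) := c1.comp (continuous_snd.prodMk continuous_fst)
      have c2' : Continuous (uncurry fun x y => Xy y x) := c2.comp (continuous_snd.prodMk continuous_fst)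
      exact hasFDerivAt_of_coord (f := fun x y => X y x) (f1 := fun x y => Xy y x)
        (f2 := fun x y => Xx y x) (fun x y => h2 y x) (fun x y => h1 y x) c2' c1' z
    exact e1.prodMk e2
  have hdet : ∀ z : ℝ × ℝ, Xx z.1 z.2 * Xx z.2 z.1 - Xy z.1 z.2 * Xy z.2 z.1 ≠ 0 := by
    intro z
    have i1 := abs_le.mp (b1 z.1 z.2)
    have i2 := abs_le.mp (b1 z.2 z.1)
    have i3 := abs_le.mp (b2 z.1 z.2)
    have i4 := abs_le.mp (b2 z.2 z.1)
    have : 0 < Xx z.1 z.2 * Xx z.2 z.1 - Xy z.1 z.2 * Xy z.2 z.1 := by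
      have k1 : 3 / 4 * (3 / 4) ≤ Xx z.1 z.2 * Xx z.2 z.1 :=
        mul_le_mul (by linarith) (by linarith) (by norm_num) (by linarith)
      have k2 : Xy z.1 z.2 * Xy z.2 z.1 ≤ 1 / 8 * (1 / 8) := by
        calc Xy z.1 z.2 * Xy z.2 z.1 ≤ |Xy z.1 z.2 * Xy z.2 z.1| := le_abs_self _
          _ = |Xy z.1 z.2| * |Xy z.2 z.1| := abs_mul _ _
          _ ≤ 1 / 8 * (1 / 8) := mul_le_mul (b2 _ _) (b2 _ _) (abs_nonneg _) (by norm_num)
      linarith
    exact this.ne'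
  have happ : ApproximatesLinearOn Φ ((ContinuousLinearEquiv.refl ℝ (ℝ × ℝ) : (ℝ × ℝ) ≃L[ℝ] (ℝ × ℝ)) :
      (ℝ × ℝ) →L[ℝ] (ℝ × ℝ)) univ (1 / 2) := by
    intro x _ y _
    have key : ‖(fun z => Φ z - z) x - (fun z => Φ z - z) y‖ ≤ 1 / 2 * ‖x - y‖ := by
      refine Convex.norm_image_sub_le_of_norm_hasFDerivWithin_le (𝕜 := ℝ) (s := univ)
        (f := fun z => Φ z - z) (C := 1 / 2)
        (f' := fun z => mat (Xx z.1 z.2) (Xy z.1 z.2) (Xy z.2 z.1) (Xx z.2 z.1) -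
          ContinuousLinearMap.id ℝ (ℝ × ℝ)) ?_ ?_ convex_univ (mem_univ _) (mem_univ _)
      · intro z _
        exact ((dΦ z).sub (hasFDerivAt_id z)).hasFDerivWithinAt
      · intro z _
        apply ContinuousLinearMap.opNorm_le_bound _ (by norm_num)
        intro v
        have hv1 : |v.1| ≤ ‖v‖ := norm_fst_le v
        have hv2 : |v.2| ≤ ‖v‖ := norm_snd_le v
        have e : (mat (Xx z.1 z.2) (Xy z.1 z.2) (Xy z.2 z.1) (Xx z.2 z.1) -
          ContinuousLinearMap.id ℝ (ℝ × ℝ)) v = ((Xx z.1 z.2 - 1) * v.1 + Xy z.1 z.2 * v.2,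
            Xy z.2 z.1 * v.1 + (Xx z.2 z.1 - 1) * v.2) := by
          simp only [ContinuousLinearMap.sub_apply, mat_apply, ContinuousLinearMap.id_apply]
          ext
          · simp; ring
          · simp; ring
        rw [e, Prod.norm_def]
        have hnn : 0 ≤ ‖v‖ := norm_nonneg v
        apply max_le
        · rw [Real.norm_eq_abs]
          refine (abs_add_le _ _).trans ?_
          rw [abs_mul, abs_mul]
          have := mul_le_mul (b1 z.1 z.2) hv1 (abs_nonneg _) (by norm_num)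
          have := mul_le_mul (b2 z.1 z.2) hv2 (abs_nonneg _) (by norm_num)
          linarith
        · rw [Real.norm_eq_abs]
          refine (abs_add_le _ _).trans ?_
          rw [abs_mul, abs_mul]
          have := mul_le_mul (b1 z.2 z.1) hv2 (abs_nonneg _) (by norm_num)
          have := mul_le_mul (b2 z.2 z.1) hv1 (abs_nonneg _) (by norm_num)
          linarith
    have e2 : (fun z => Φ z - z) x - (fun z => Φ z - z) y = Φ x - Φ y - (x - y) := by
      simp only; abel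
    rw [e2] at key
    simpa using key
  have hN : Subsingleton (ℝ × ℝ) ∨ (1 / 2 : NNReal) <
      ‖(((ContinuousLinearEquiv.refl ℝ (ℝ × ℝ)).symm : (ℝ × ℝ) ≃L[ℝ] (ℝ × ℝ)) : (ℝ × ℝ) →L[ℝ] (ℝ × ℝ))‖₊⁻¹ := by
    right
    have : ‖(((ContinuousLinearEquiv.refl ℝ (ℝ × ℝ)).symm : (ℝ × ℝ) ≃L[ℝ] (ℝ × ℝ)) : (ℝ × ℝ) →L[ℝ] (ℝ × ℝ))‖₊ = 1 := by
      have : (((ContinuousLinearEquiv.refl ℝ (ℝ × ℝ)).symm : (ℝ × ℝ) ≃L[ℝ] (ℝ × ℝ)) : (ℝ × ℝ) →L[ℝ] (ℝ × ℝ)) =
        ContinuousLinearMap.id ℝ (ℝ × ℝ) := by ext <;> simp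
      rw [this]
      exact NNReal.eq (by simp)
    rw [this]
    rw [← NNReal.coe_lt_coe]; push_cast; norm_num
  let h : (ℝ × ℝ) ≃ₜ (ℝ × ℝ) := happ.toHomeomorph Φ hN
  have hh : ∀ z, h z = Φ z := fun z => rfl
  have hsm : ContDiff ℝ ((⊤ : ℕ∞) : WithTop ℕ∞) h.symm := by
    apply Homeomorph.contDiff_symm h (f₀' := fun z => matEquiv _ _ _ _ (hdet z))
    · intro z
      rw [matEquiv_coe]
      exact dΦ z
    · exact cΦ
  have hswap : ∀ P Q, h.symm (Q, P) = ((h.symm (P, Q)).2, (h.symm (P, Q)).1) := by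
    intro P Q
    rw [Homeomorph.symm_apply_eq, hh]
    have e := h.apply_symm_apply (P, Q)
    rw [hh] at e
    simp only [hΦ, Prod.mk.injEq] at e ⊢
    exact ⟨e.2.symm, e.1.symm⟩
  refine ⟨fun P Q => (h.symm (P, Q)).1, ?_, ?_, ?_⟩
  · exact contDiff_fst.comp hsm
  · intro x y
    have e := h.symm_apply_apply (x, y)
    rw [hh] at e
    simp only [hΦ] at e
    show (h.symm (X x y, X y x)).1 = x
    rw [e]
  · intro P Q
    have e := h.apply_symm_apply (P, Q)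
    rw [hh] at e
    simp only [hΦ, Prod.mk.injEq] at e
    show X (h.symm (P, Q)).1 (h.symm (Q, P)).1 = P
    rw [hswap P Q]
    exact e.1

end Pool.Agent.helper41.Cubic
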