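import Pool.Agent.helper41.Cubic.Volt2
import Pool.Agent.helper41.Cubic.Inv

set_option autoImplicit false

open Function Set Filter Topology

namespace Pool.Agent.helper41.Cubic

theorem contDiff_top_D1 {f : ℝ → ℝ → ℝ} (hf : ContDiff ℝ ((⊤ : ℕ∞) : WithTop ℕ∞) (uncurry f)) :
    ContDiff ℝ ((⊤ : ℕ∞) : WithTop ℕ∞) (uncurry (D1 f)) := by
  rw [contDiff_infty] at *
  intro n
  exact contDiff_D1 (by exact_mod_cast hf (n + 1))

theorem contDiff_top_D2 {f : ℝ → ℝ → ℝ} (hf : ContDiff ℝ ((⊤ : ℕ∞) : WithTop ℕ∞) (uncurry f)) :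
    ContDiff ℝ ((⊤ : ℕ∞) : WithTop ℕ∞) (uncurry (D2 f)) := by
  rw [contDiff_infty] at *
  intro n
  exact contDiff_D2 (by exact_mod_cast hf (n + 1))

theorem top_ne_zero' : ((⊤ : ℕ∞) : WithTop ℕ∞) ≠ 0 := by simp

/-- The crossing coordinate `A` attached to a slope function `μ` of the two labels. -/
theorem crossing {μ : ℝ → ℝ → ℝ}
    (cμ : ContDiff ℝ ((⊤ : ℕ∞) : WithTop ℕ∞) (uncurry μ))
    (h1 : ∀ x y, 1 ≤ |y| → μ x y = 0)
    (h2 : ∀ x y, |μ x y| ≤ 1 / 40) (h3 : ∀ x y, |D1 μ x y| ≤ 1 / 40)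
    (h4 : ∀ x y, μ (-x) (-y) = μ x y) (h5 : ∀ x y, 1 ≤ |x| → μ x y = μ 1 y) :
    ∃ A : ℝ → ℝ → ℝ, ContDiff ℝ ((⊤ : ℕ∞) : WithTop ℕ∞) (uncurry A) ∧
      (∀ P Q, μ (A P Q) (A Q P) * D1 A P Q + D2 A P Q = 0) ∧
      (∀ P Q, A (-P) (-Q) = - A P Q) ∧
      (∀ P Q, 2 ≤ |P| → 1 ≤ |A P Q|) ∧
      (∀ P P' Q, 2 ≤ P → 2 ≤ P' → μ (A P Q) (A Q P) = μ (A P' Q) (A Q P')) ∧
      (∃ Q, A 2 Q = 2 ∧ A Q 2 = 0) := by
  -- coefficients
  set den : ℝ → ℝ → ℝ := fun x y => 1 - μ x y * μ y x with hden
  have hprod : ∀ x y, |μ x y * μ y x| ≤ 1 / 1600 := by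
    intro x y
    rw [abs_mul]
    calc |μ x y| * |μ y x| ≤ 1 / 40 * (1 / 40) :=
          mul_le_mul (h2 _ _) (h2 _ _) (abs_nonneg _) (by norm_num)
      _ = 1 / 1600 := by norm_num
  have hdpos : ∀ x y, 1599 / 1600 ≤ den x y := by
    intro x y
    have := (abs_le.mp (hprod x y)).2
    simp only [hden]; linarith
  have hdne : ∀ x y, den x y ≠ 0 := fun x y => ne_of_gt (by linarith [hdpos x y])
  have hdsymm : ∀ x y, den x y = den y x := fun x y => by simp only [hden]; ring
  have cD := contDiff_top_D1 cμ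
  set a : ℝ → ℝ → ℝ := fun x y => μ x y * D1 μ y x / den x y with ha
  set b : ℝ → ℝ → ℝ := fun x y => D1 μ x y / den x y with hb
  have cμ' : ContDiff ℝ ((⊤ : ℕ∞) : WithTop ℕ∞) (fun z : ℝ × ℝ => μ z.1 z.2) := cμ
  have cμs : ContDiff ℝ ((⊤ : ℕ∞) : WithTop ℕ∞) (fun z : ℝ × ℝ => μ z.2 z.1) :=
    contDiff_swap_uncurry cμ
  have cden : ContDiff ℝ ((⊤ : ℕ∞) : WithTop ℕ∞) (fun z : ℝ × ℝ => den z.1 z.2) :=
    contDiff_const.sub (cμ'.mul cμs)
  have ca : ContDiff ℝ ((⊤ : ℕ∞) : WithTop ℕ∞) (uncurry a) := by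
    have : ContDiff ℝ ((⊤ : ℕ∞) : WithTop ℕ∞)
        (fun z : ℝ × ℝ => μ z.1 z.2 * D1 μ z.2 z.1 / den z.1 z.2) :=
      (cμ'.mul (contDiff_swap_uncurry cD)).div cden (fun z => hdne _ _)
    exact this
  have cb : ContDiff ℝ ((⊤ : ℕ∞) : WithTop ℕ∞) (uncurry b) := by
    have : ContDiff ℝ ((⊤ : ℕ∞) : WithTop ℕ∞)
        (fun z : ℝ × ℝ => D1 μ z.1 z.2 / den z.1 z.2) :=
      (show ContDiff ℝ ((⊤ : ℕ∞) : WithTop ℕ∞) (fun z : ℝ × ℝ => D1 μ z.1 z.2) from cD).div
        cden (fun z => hdne _ _)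
    exact this
  have bb : ∀ x y, |b x y| ≤ 1 / 30 := by
    intro x y
    simp only [hb]
    rw [abs_div, abs_of_pos (show 0 < den x y by linarith [hdpos x y]),
      div_le_iff₀ (by linarith [hdpos x y])]
    nlinarith [h3 x y, hdpos x y]
  have ba : ∀ x y, |a x y| ≤ 1 / 30 := by
    intro x y
    simp only [ha]
    rw [abs_div, abs_of_pos (show 0 < den x y by linarith [hdpos x y]),
      div_le_iff₀ (by linarith [hdpos x y]), abs_mul]
    have := mul_le_mul (h2 x y) (h3 y x) (abs_nonneg _) (by norm_num : (0 : ℝ) ≤ 1 / 40)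
    nlinarith [hdpos x y]
  have hμ0 : ∀ x y, 1 ≤ |y| → D1 μ x y = 0 := by
    intro x y hy
    have e := deriv_fst_of_contDiff top_ne_zero' cμ x y
    have e2 : HasDerivAt (fun s => μ s y) 0 x := by
      have : (fun s => μ s y) = fun _ => 0 := by ext s; exact h1 s y hy
      rw [this]; exact hasDerivAt_const x 0
    exact e.unique e2
  have sa : ∀ x y, 1 ≤ |y| → a x y = 0 := fun x y hy => by simp [ha, h1 x y hy]
  have sb : ∀ x y, 1 ≤ |y| → b x y = 0 := fun x y hy => by simp [hb, hμ0 x y hy]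
  have hDodd : ∀ x y, D1 μ (-x) (-y) = - D1 μ x y := by
    intro x y
    have e := deriv_fst_of_contDiff top_ne_zero' cμ (-x) (-y)
    have e2 : HasDerivAt (fun s => μ s y) (D1 μ (-x) (-y) * (-1)) x := by
      have e3 : HasDerivAt (fun s : ℝ => -s) (-1) x := hasDerivAt_neg' x
      have e4 := HasDerivAt.comp x (show HasDerivAt (fun s => μ s (-y)) (D1 μ (-x) (-y)) (-x) from e) e3
      refine e4.congr_of_eventuallyEq (Filter.Eventually.of_forall fun s => ?_)
      exact (h4 s y).symm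
    have e5 := (deriv_fst_of_contDiff top_ne_zero' cμ x y).unique e2
    change D1 μ x y = _ at e5
    linarith
  have hdeneven : ∀ x y, den (-x) (-y) = den x y := fun x y => by
    simp only [hden, h4]
  have oa : ∀ x y, a (-x) (-y) = - a x y := fun x y => by
    simp only [ha, hdeneven, h4, hDodd]; ring
  have ob : ∀ x y, b (-x) (-y) = - b x y := fun x y => by
    simp only [hb, hdeneven, hDodd]; ring
  obtain ⟨U, cU0, hU, Usym, Ubd⟩ := volterra_cont ca.continuous cb.continuous
    (by norm_num : (1 / 30 : ℝ) ≤ 1 / 16) ba bb sa sb oa ob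
  have cU := smooth_of_fixed ca cb cU0 hU
  have hUy : ∀ x y, HasDerivAt (fun s => U x s) (rhs a b U x y) y := by
    intro x y
    have h := (J_snd (continuous_rhs ca.continuous cb.continuous cU0) x y).const_add 1
    exact h.congr_of_eventuallyEq (Filter.Eventually.of_forall fun s => hU x s)
  -- the coordinate X
  set k : ℝ → ℝ → ℝ := fun x t => μ x t * U t x with hk
  set k' : ℝ → ℝ → ℝ := fun x t => D1 μ x t * U t x + μ x t * rhs a b U t x with hk'
  have ckk : ContDiff ℝ ((⊤ : ℕ∞) : WithTop ℕ∞) (uncurry k) := by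
    have : ContDiff ℝ ((⊤ : ℕ∞) : WithTop ℕ∞) (fun z : ℝ × ℝ => μ z.1 z.2 * U z.2 z.1) :=
      cμ'.mul (contDiff_swap_uncurry cU)
    exact this
  have ck' : Continuous (uncurry k') := by
    have : Continuous (fun z : ℝ × ℝ => D1 μ z.1 z.2 * U z.2 z.1 + μ z.1 z.2 * rhs a b U z.2 z.1) :=
      ((show Continuous (fun z : ℝ × ℝ => D1 μ z.1 z.2) from cD.continuous).mul
        (continuous_swap_uncurry cU0)).add
      (cμ'.continuous.mul
        (continuous_swap_uncurry (continuous_rhs ca.continuous cb.continuous cU0)))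
    exact this
  have hkk : ∀ x t, HasDerivAt (fun s => k s t) (k' x t) x := by
    intro x t
    exact (deriv_fst_of_contDiff top_ne_zero' cμ x t).mul (hUy t x)
  have hk'eq : k' = rhs a b U := by
    funext x t
    have hd1 := hdne x t
    have hd2 : den t x = den x t := hdsymm t x
    simp only [hk', rhs, ha, hb, hd2]
    have hexp : μ x t * μ t x = 1 - den x t := by simp only [hden]; ring
    field_simp
    linear_combination (D1 μ x t * U t x) * hexp
  set X : ℝ → ℝ → ℝ := fun x y => x + J k x y with hX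
  have cX : ContDiff ℝ ((⊤ : ℕ∞) : WithTop ℕ∞) (uncurry X) := by
    have : ContDiff ℝ ((⊤ : ℕ∞) : WithTop ℕ∞) (fun z : ℝ × ℝ => z.1 + J k z.1 z.2) :=
      contDiff_fst.add (contDiff_J ckk)
    exact this
  have X1 : ∀ x y, HasDerivAt (fun s => X s y) (U x y) x := by
    intro x y
    have e := (hasDerivAt_id x).add (J_fst hkk ckk.continuous ck' x y)
    rw [hk'eq, ← hU x y] at e
    exact e
  have X2 : ∀ x y, HasDerivAt (fun s => X x s) (k x y) y := by
    intro x y
    exact (J_snd ckk.continuous x y).const_add x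
  have Ub : ∀ x y, |U x y| ≤ 5 / 4 := by
    intro x y
    have := abs_le.mp (Ubd x y)
    rw [abs_le]; constructor <;> linarith
  have kb : ∀ x y, |k x y| ≤ 1 / 32 := by
    intro x y
    simp only [hk]
    rw [abs_mul]
    calc |μ x y| * |U y x| ≤ 1 / 40 * (5 / 4) :=
          mul_le_mul (h2 _ _) (Ub _ _) (abs_nonneg _) (by norm_num)
      _ = 1 / 32 := by norm_num
  have ks : ∀ x y, 1 ≤ |y| → k x y = 0 := fun x y hy => by simp [hk, h1 x y hy]
  obtain ⟨A, cA, hA1, hA2⟩ := global_inverse cX X1 X2 cU.continuous ckk.continuous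
    (fun x y => Ubd x y) (fun x y => (kb x y).trans (by norm_num))
  have hnear : ∀ P Q, |P - A P Q| ≤ 1 / 32 := by
    intro P Q
    have e := hA2 P Q
    have e2 : P - A P Q = J k (A P Q) (A Q P) := by
      have e3 : X (A P Q) (A Q P) = A P Q + J k (A P Q) (A Q P) := rfl
      linarith
    rw [e2]
    exact abs_integral_le_of_supp (ckk.continuous.comp (Continuous.prodMk_right _))
      (fun t ht => ks _ t ht) (fun t => kb _ t) _
  refine ⟨A, cA, ?_, ?_, ?_, ?_, ?_⟩
  · -- leaf equation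
    intro P Q
    set x := A P Q with hx
    set y := A Q P with hy
    have eP : X x y = P := hA2 P Q
    have eQ : X y x = Q := hA2 Q P
    have hAd := (cA.differentiable top_ne_zero' (P, Q)).hasFDerivAt
    have hcurve : HasDerivAt (fun s => ((X x s, X s x) : ℝ × ℝ)) (k x y, U y x) y :=
      (X2 x y).prodMk (X1 y x)
    have hz : ((X x y, X y x) : ℝ × ℝ) = (P, Q) := by rw [eP, eQ]
    rw [← hz] at hAd
    have hc := hAd.comp_hasDerivAt y hcurve
    have hc2 : HasDerivAt (fun s => uncurry A (X x s, X s x)) 0 y := by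
      have : (fun s => uncurry A (X x s, X s x)) = fun _ => x := by
        funext s; exact hA1 x s
      rw [this]; exact hasDerivAt_const y x
    have h0 := hc.unique hc2
    rw [hz] at h0
    have hsplit : ((k x y, U y x) : ℝ × ℝ) = k x y • ((1, 0) : ℝ × ℝ) + U y x • ((0, 1) : ℝ × ℝ) := by
      ext <;> simp
    rw [hsplit, map_add, map_smul, map_smul] at h0
    simp only [smul_eq_mul] at h0
    change k x y * D1 A P Q + U y x * D2 A P Q = 0 at h0
    have hUpos : U y x ≠ 0 := by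
      have := abs_le.mp (Ubd y x)
      intro h; rw [h] at this; norm_num at this
    have h6 : U y x * (μ x y * D1 A P Q + D2 A P Q) = 0 := by
      simp only [hk] at h0
      linear_combination h0
    exact (mul_eq_zero.mp h6).resolve_left hUpos
  · -- oddness
    intro P Q
    have Xodd : ∀ x y, X (-x) (-y) = - X x y := by
      intro x y
      simp only [hX, J]
      have e : ∫ t in (0 : ℝ)..(-y), k (-x) t = - ∫ t in (0 : ℝ)..y, k x t := by
        have e1 := intervalIntegral.integral_comp_neg (a := 0) (b := y) (fun t => k (-x) t)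
        rw [neg_zero] at e1
        have e2 : ∫ t in (0 : ℝ)..y, k (-x) (-t) = ∫ t in (0 : ℝ)..y, k x t := by
          apply intervalIntegral.integral_congr
          intro t _
          simp only [hk, h4, Usym]
        rw [intervalIntegral.integral_symm (-y) 0]
        linarith
      rw [e]; ring
    have e1 := hA1 (-(A P Q)) (-(A Q P))
    rw [Xodd, Xodd, hA2, hA2] at e1
    exact e1
  · intro P Q hP
    have := hnear P Q
    have h7 : |P| ≤ |P - A P Q| + |A P Q| := by
      have := abs_add_le (P - A P Q) (A P Q)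
      simpa using this
    linarith
  · intro P P' Q hP hP'
    have hge : ∀ P, 2 ≤ P → 1 ≤ A P Q := fun P hP => by
      have := (abs_le.mp (hnear P Q)).2
      linarith
    have hJ : ∀ y x, 1 ≤ x → X y x = X y 1 := by
      intro y x hx
      have cky : Continuous (fun t => k y t) := ckk.continuous.comp (Continuous.prodMk_right y)
      simp only [hX, J]
      rw [← intervalIntegral.integral_add_adjacent_intervals (b := 1)
        (cky.intervalIntegrable 0 1) (cky.intervalIntegrable 1 x)]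
      have : ∫ t in (1 : ℝ)..x, k y t = ∫ t in (1 : ℝ)..x, (0 : ℝ) := by
        apply intervalIntegral.integral_congr
        intro t ht
        rw [uIcc_of_le hx] at ht
        exact ks y t (le_trans ht.1 (le_abs_self t))
      rw [this]; simp
    have hmono : StrictMono (fun y => X y 1) := by
      apply strictMono_of_deriv_pos
      intro y
      rw [(X1 y 1).deriv]
      have := abs_le.mp (Ubd y 1)
      linarith
    have e1 : X (A Q P) 1 = Q := by rw [← hJ _ _ (hge P hP)]; exact hA2 Q P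
    have e2 : X (A Q P') 1 = Q := by rw [← hJ _ _ (hge P' hP')]; exact hA2 Q P'
    have e3 : A Q P = A Q P' := hmono.injective (show X (A Q P) 1 = X (A Q P') 1 by rw [e1, e2])
    rw [h5 _ _ (le_trans (hge P hP) (le_abs_self _)), h5 _ (A Q P') (le_trans (hge P' hP') (le_abs_self _)), e3]
  · refine ⟨X 0 2, ?_, ?_⟩
    · have e := hA1 2 0
      have e2 : X 2 0 = 2 := by simp [hX, J]
      rwa [e2] at e
    · have e := hA1 0 2
      have e2 : X 2 0 = 2 := by simp [hX, J]
      rwa [e2] at e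

end Pool.Agent.helper41.Cubic
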