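import Pool.Agent.helper41.Cubic.Inv

set_option autoImplicit false

open Function Set Filter Topology

namespace Pool.Agent.helper41.Cubic

/-- the normalising cubic expression -/
def n3 (m n : ℝ) : ℝ := (1 + m * n + 2 * m + 2 * n) ^ 3 - 27 * m * n * (1 + m) * (1 + n)
/-- auxiliary expression -/
def cc (m n : ℝ) : ℝ := 1 + 2 * m + 2 * m * n + m ^ 2 * n
/-- the rational first invariant -/
noncomputable def ff (m n : ℝ) : ℝ := n * ((1 + n) * cc m n ^ 3 / n3 m n ^ 2)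

theorem n3_pos {m n : ℝ} (hm : |m| ≤ 1 / 40) (hn : |n| ≤ 1 / 40) : 1 / 2 < n3 m n := by
  obtain ⟨m1, m2⟩ := abs_le.mp hm
  obtain ⟨n1, n2⟩ := abs_le.mp hn
  have hmn : |m * n| ≤ 1 / 1600 := by
    rw [abs_mul]
    calc |m| * |n| ≤ 1 / 40 * (1 / 40) := mul_le_mul hm hn (abs_nonneg _) (by norm_num)
      _ = 1 / 1600 := by norm_num
  obtain ⟨q1, q2⟩ := abs_le.mp hmn
  have h1 : (89 / 100 : ℝ) ≤ 1 + m * n + 2 * m + 2 * n := by linarith
  have h2 : (89 / 100 : ℝ) ^ 3 ≤ (1 + m * n + 2 * m + 2 * n) ^ 3 :=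
    pow_le_pow_left₀ (by norm_num) h1 3
  have h3 : (1 + m) * (1 + n) ≤ 2 := by nlinarith
  have h4 : 0 ≤ (1 + m) * (1 + n) := mul_nonneg (by linarith) (by linarith)
  have h5 : 27 * m * n * (1 + m) * (1 + n) ≤ 27 / 800 := by
    have : 27 * m * n * (1 + m) * (1 + n) = 27 * ((m * n) * ((1 + m) * (1 + n))) := by ring
    rw [this]
    have : (m * n) * ((1 + m) * (1 + n)) ≤ 1 / 1600 * 2 := by
      calc (m * n) * ((1 + m) * (1 + n)) ≤ 1 / 1600 * ((1 + m) * (1 + n)) :=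
            mul_le_mul_of_nonneg_right q2 h4
        _ ≤ 1 / 1600 * 2 := mul_le_mul_of_nonneg_left h3 (by norm_num)
    linarith
  unfold n3
  norm_num at h2
  linarith

theorem cc_pos {m n : ℝ} (hm : |m| ≤ 1 / 40) (hn : |n| ≤ 1 / 40) : 0 < cc m n := by
  obtain ⟨m1, m2⟩ := abs_le.mp hm
  obtain ⟨n1, n2⟩ := abs_le.mp hn
  unfold cc
  nlinarith [sq_nonneg m, sq_nonneg n, mul_nonneg (sub_nonneg.2 m2) (sub_nonneg.2 n2),
    mul_nonneg (by linarith : 0 ≤ m + 1 / 40) (by linarith : 0 ≤ n + 1 / 40),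
    mul_nonneg (sq_nonneg m) (by linarith : 0 ≤ n + 1 / 40)]

theorem ff_eq_zero {m n : ℝ} (hm : |m| ≤ 1 / 40) (hn : |n| ≤ 1 / 40) (h : ff m n = 0) : n = 0 := by
  unfold ff at h
  rcases mul_eq_zero.mp h with h | h
  · exact h
  · exfalso
    have h1 := n3_pos hm hn
    have h2 := cc_pos hm hn
    have h3 := (abs_le.mp hn).1
    have : 0 < (1 + n) * cc m n ^ 3 / n3 m n ^ 2 := by
      apply div_pos (mul_pos (by linarith) (pow_pos h2 3)) (pow_pos (by linarith) 2)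
    exact this.ne' h

/-- the pair of invariants -/
noncomputable def FF (z : ℝ × ℝ) : ℝ × ℝ := (ff z.1 z.2, ff z.2 z.1)

theorem contDiffAt_g : ContDiffAt ℝ (⊤ : WithTop ℕ∞)
    (fun z : ℝ × ℝ => (1 + z.2) * cc z.1 z.2 ^ 3 / n3 z.1 z.2 ^ 2) (0, 0) := by
  have h1 : ContDiffAt ℝ (⊤ : WithTop ℕ∞) (fun z : ℝ × ℝ => (1 + z.2) * cc z.1 z.2 ^ 3) (0, 0) := by
    unfold cc; fun_prop
  have h2 : ContDiffAt ℝ (⊤ : WithTop ℕ∞) (fun z : ℝ × ℝ => n3 z.1 z.2 ^ 2) (0, 0) := by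
    unfold n3; fun_prop
  exact h1.div h2 (by simp [n3])

theorem contDiffAt_ff : ContDiffAt ℝ (⊤ : WithTop ℕ∞) (fun z : ℝ × ℝ => ff z.1 z.2) (0, 0) := by
  unfold ff
  exact contDiffAt_snd.mul contDiffAt_g

theorem hasFDerivAt_ff : HasFDerivAt (fun z : ℝ × ℝ => ff z.1 z.2) (dmat 0 1) (0, 0) := by
  have h1 : HasFDerivAt (fun z : ℝ × ℝ => (1 + z.2) * cc z.1 z.2 ^ 3 / n3 z.1 z.2 ^ 2)
      (fderiv ℝ (fun z : ℝ × ℝ => (1 + z.2) * cc z.1 z.2 ^ 3 / n3 z.1 z.2 ^ 2) (0, 0)) (0, 0) :=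
    (contDiffAt_g.differentiableAt (by simp)).hasFDerivAt
  have h2 := (hasFDerivAt_snd (𝕜 := ℝ) (E := ℝ) (F := ℝ) (p := (0, 0))).mul h1
  refine HasFDerivAt.congr_fderiv (f' := _) h2 ?_
  ext <;> simp [cc, n3]

theorem contDiffAt_FF : ContDiffAt ℝ (⊤ : WithTop ℕ∞) FF (0, 0) := by
  have h : ContDiffAt ℝ (⊤ : WithTop ℕ∞) (fun z : ℝ × ℝ => ff z.2 z.1) (0, 0) :=
    ContDiffAt.comp (0, 0) (g := fun z : ℝ × ℝ => ff z.1 z.2) (f := fun z : ℝ × ℝ => (z.2, z.1))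
      contDiffAt_ff (contDiffAt_snd.prodMk contDiffAt_fst)
  exact contDiffAt_ff.prodMk h

theorem hasFDerivAt_FF : HasFDerivAt FF (mat 0 1 1 0) (0, 0) := by
  have h : HasFDerivAt (fun z : ℝ × ℝ => ff z.2 z.1) (dmat 1 0) (0, 0) := by
    have h1 : HasFDerivAt (fun z : ℝ × ℝ => (z.2, z.1)) (mat 0 1 1 0) (0, 0) := by
      have := (hasFDerivAt_snd (𝕜 := ℝ) (E := ℝ) (F := ℝ) (p := (0, 0))).prodMk
        (hasFDerivAt_fst (𝕜 := ℝ) (E := ℝ) (F := ℝ) (p := (0, 0)))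
      refine HasFDerivAt.congr_fderiv this ?_
      ext <;> simp
    have h2 := HasFDerivAt.comp (0, 0) (g := fun z : ℝ × ℝ => ff z.1 z.2)
      (f := fun z : ℝ × ℝ => (z.2, z.1)) hasFDerivAt_ff h1
    refine HasFDerivAt.congr_fderiv h2 ?_
    ext <;> simp
  exact hasFDerivAt_ff.prodMk h

theorem exists_local_net : ∃ N : ℝ × ℝ → ℝ, ∃ r > 0, ∃ K > 0,
    (∀ z, ‖z‖ < r → ContDiffAt ℝ (⊤ : WithTop ℕ∞) N z) ∧
    (∀ z, ‖z‖ < r → |N z| ≤ 1 / 40) ∧
    (∀ z, ‖z‖ < r → ‖fderiv ℝ N z‖ ≤ K) ∧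
    (∀ z : ℝ × ℝ, ‖z‖ < r → ff (N z) (N (z.2, z.1)) = z.1) := by
  have hd0 : (0 : ℝ) * 0 - 1 * 1 ≠ 0 := by norm_num
  have hfd : HasFDerivAt FF ((matEquiv 0 1 1 0 hd0 : (ℝ × ℝ) ≃L[ℝ] (ℝ × ℝ)) : ℝ × ℝ →L[ℝ] ℝ × ℝ)
      (0, 0) := by
    rw [matEquiv_coe]; exact hasFDerivAt_FF
  have hn : (⊤ : WithTop ℕ∞) ≠ 0 := by simp
  set e := contDiffAt_FF.toOpenPartialHomeomorph FF hfd hn with he
  have h0s : ((0, 0) : ℝ × ℝ) ∈ e.source := contDiffAt_FF.mem_toOpenPartialHomeomorph_source hfd hn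
  have hF0 : FF (0, 0) = (0, 0) := by simp [FF, ff]
  have h0t : ((0, 0) : ℝ × ℝ) ∈ e.target := by
    have := contDiffAt_FF.image_mem_toOpenPartialHomeomorph_target hfd hn
    rwa [hF0] at this
  have heF : ∀ z, e z = FF z := fun z => rfl
  have hinv0 : e.symm (0, 0) = (0, 0) := by
    have := e.left_inv h0s
    rwa [heF, hF0] at this
  have hcd : ContDiffAt ℝ (⊤ : WithTop ℕ∞) e.symm (0, 0) := by
    have := contDiffAt_FF.to_localInverse hfd hn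
    rw [hF0] at this
    exact this
  have hcont : ContinuousAt e.symm (0, 0) := hcd.continuousAt
  -- eventually conditions
  have ev1 : ∀ᶠ z in 𝓝 ((0, 0) : ℝ × ℝ), ContDiffAt ℝ (⊤ : WithTop ℕ∞) e.symm z :=
    hcd.eventually (by simp)
  have ev2 : ∀ᶠ z in 𝓝 ((0, 0) : ℝ × ℝ), z ∈ e.target := e.open_target.mem_nhds h0t
  have ev3 : ∀ᶠ z in 𝓝 ((0, 0) : ℝ × ℝ), e.symm z ∈ Metric.ball ((0, 0) : ℝ × ℝ) (1 / 40) := by
    apply hcont
    rw [hinv0]
    exact Metric.ball_mem_nhds _ (by norm_num)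
  have ev4 : ∀ᶠ z in 𝓝 ((0, 0) : ℝ × ℝ), ((e.symm z).2, (e.symm z).1) ∈ e.source := by
    have hc : ContinuousAt (fun z => ((e.symm z).2, (e.symm z).1)) ((0, 0) : ℝ × ℝ) :=
      hcont.snd.prodMk hcont.fst
    apply hc
    simp only [hinv0]
    exact e.open_source.mem_nhds h0s
  have ev5 : ∀ᶠ z in 𝓝 ((0, 0) : ℝ × ℝ),
      ‖fderiv ℝ (fun z => (e.symm z).1) z‖ < ‖fderiv ℝ (fun z => (e.symm z).1) (0, 0)‖ + 1 := by
    have hcd1 : ContDiffAt ℝ (⊤ : WithTop ℕ∞) (fun z => (e.symm z).1) (0, 0) := hcd.fst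
    have hcf : ContinuousAt (fderiv ℝ (fun z => (e.symm z).1)) ((0, 0) : ℝ × ℝ) :=
      (hcd1.fderiv_right (m := 0) (by simp)).continuousAt
    exact hcf.norm.eventually (gt_mem_nhds (by simp))
  obtain ⟨r, hr, hball⟩ := Metric.eventually_nhds_iff_ball.mp (ev1.and (ev2.and (ev3.and (ev4.and ev5))))
  have hmem : ∀ z : ℝ × ℝ, ‖z‖ < r → z ∈ Metric.ball ((0, 0) : ℝ × ℝ) r := fun z hz => by
    rw [Metric.mem_ball, show ((0, 0) : ℝ × ℝ) = 0 from rfl, dist_zero_right]; exact hz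
  refine ⟨fun z => (e.symm z).1, r, hr, ‖fderiv ℝ (fun z => (e.symm z).1) (0, 0)‖ + 1,
    by positivity, ?_, ?_, ?_, ?_⟩
  · intro z hz
    exact (hball z (hmem z hz)).1.fst
  · intro z hz
    have := (hball z (hmem z hz)).2.2.1
    rw [Metric.mem_ball, Prod.dist_eq] at this
    have h1 := lt_of_le_of_lt (le_max_left _ _) this
    simp only [dist_zero_right, Real.norm_eq_abs] at h1
    exact h1.le
  · intro z hz
    exact (hball z (hmem z hz)).2.2.2.2.le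
  · intro z hz
    have hz' := hball z (hmem z hz)
    have hswap : ‖((z.2, z.1) : ℝ × ℝ)‖ < r := by
      rw [Prod.norm_def] at hz ⊢
      simpa [max_comm] using hz
    have hFz : FF (e.symm z) = z := by
      rw [← heF]; exact e.right_inv hz'.2.1
    have hs : e.symm (z.2, z.1) = ((e.symm z).2, (e.symm z).1) := by
      have h6 : FF ((e.symm z).2, (e.symm z).1) = (z.2, z.1) := by
        have := congrArg (fun w : ℝ × ℝ => (w.2, w.1)) hFz
        simpa [FF] using this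
      rw [← h6, ← heF]
      exact e.left_inv hz'.2.2.2.1
    have h7 : ff (e.symm z).1 (e.symm z).2 = z.1 := by
      have := congrArg Prod.fst hFz
      simpa [FF] using this
    show ff (e.symm z).1 (e.symm (z.2, z.1)).1 = z.1
    rw [hs]
    exact h7

/-- The slope function of two labels, with its profile. -/
theorem exists_net : ∃ (μ : ℝ → ℝ → ℝ) (s : ℝ → ℝ),
    ContDiff ℝ ((⊤ : ℕ∞) : WithTop ℕ∞) (uncurry μ) ∧
    ContDiff ℝ ((⊤ : ℕ∞) : WithTop ℕ∞) s ∧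
    (∀ x y, 1 ≤ |y| → μ x y = 0) ∧ (∀ x y, |μ x y| ≤ 1 / 40) ∧ (∀ x y, |D1 μ x y| ≤ 1 / 40) ∧
    (∀ x y, μ (-x) (-y) = μ x y) ∧ (∀ x y, 1 ≤ |x| → μ x y = μ 1 y) ∧
    (∀ x y, ff (μ x y) (μ y x) = s x) ∧ μ 1 0 ≠ 0 ∧ (∀ x, 1 ≤ |x| → s x = 0) := by
  obtain ⟨N, r, hr, K, hK, hN1, hN2, hN3, hN4⟩ := exists_local_net
  let χ : ContDiffBump (0 : ℝ) := ⟨1 / 2, 1, by norm_num, by norm_num⟩
  have χ1 : ∀ x : ℝ, 1 ≤ |x| → χ x = 0 := by
    intro x hx
    apply χ.zero_of_le_dist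
    simpa using hx
  have χ0 : χ 0 = 1 := by
    apply χ.one_of_mem_closedBall
    simp; norm_num
  have χd : ContDiff ℝ ((⊤ : ℕ∞) : WithTop ℕ∞) χ := χ.contDiff
  obtain ⟨C, hC⟩ : ∃ C, ∀ x, |deriv χ x| ≤ C := by
    have hc : Continuous (deriv χ) := χd.continuous_deriv (by exact_mod_cast le_top)
    have hcs : HasCompactSupport (deriv χ) := χ.hasCompactSupport.deriv
    obtain ⟨C, hC⟩ := hc.bounded_above_of_compact_support hcs
    exact ⟨C, fun x => hC x⟩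
  have hC0 : 0 ≤ C := le_trans (abs_nonneg _) (hC 0)
  obtain ⟨ε, hε0, hε1, hε2⟩ : ∃ ε > 0, ε < r ∧ K * (ε * C) ≤ 1 / 40 := by
    refine ⟨min (r / 2) (1 / (40 * (K * C + 1))), by positivity, ?_, ?_⟩
    · exact lt_of_le_of_lt (min_le_left _ _) (by linarith)
    · have h1 : min (r / 2) (1 / (40 * (K * C + 1))) ≤ 1 / (40 * (K * C + 1)) := min_le_right _ _
      have h2 : 0 ≤ K * C := by positivity
      calc K * (min (r / 2) (1 / (40 * (K * C + 1))) * C)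
          = min (r / 2) (1 / (40 * (K * C + 1))) * (K * C) := by ring
        _ ≤ 1 / (40 * (K * C + 1)) * (K * C) := mul_le_mul_of_nonneg_right h1 h2
        _ ≤ 1 / 40 := by
          rw [div_mul_eq_mul_div, div_le_div_iff₀ (by positivity) (by norm_num)]
          nlinarith
  set s : ℝ → ℝ := fun x => ε * χ x with hs
  have hsm : ∀ x, |s x| ≤ ε := by
    intro x
    simp only [hs]
    rw [abs_mul, abs_of_pos hε0, abs_of_nonneg χ.nonneg]
    nlinarith [χ.le_one (x := x)]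
  have hsz : ∀ x, 1 ≤ |x| → s x = 0 := fun x hx => by simp [hs, χ1 x hx]
  have hseven : ∀ x, s (-x) = s x := fun x => by simp only [hs, χ.neg]
  have csm : ContDiff ℝ ((⊤ : ℕ∞) : WithTop ℕ∞) s := contDiff_const.mul χd
  have hnorm : ∀ x y, ‖((s x, s y) : ℝ × ℝ)‖ < r := by
    intro x y
    rw [Prod.norm_def]
    exact max_lt (lt_of_le_of_lt (hsm x) hε1) (lt_of_le_of_lt (hsm y) hε1)
  have hff : ∀ x y, ff (N (s x, s y)) (N (s y, s x)) = s x := fun x y => hN4 (s x, s y) (hnorm x y)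
  refine ⟨fun x y => N (s x, s y), s, ?_, csm, ?_, ?_, ?_, ?_, ?_, hff, ?_, hsz⟩
  · rw [contDiff_iff_contDiffAt]
    intro z
    have h1 : ContDiffAt ℝ ((⊤ : ℕ∞) : WithTop ℕ∞) N (s z.1, s z.2) :=
      (hN1 _ (hnorm z.1 z.2)).of_le le_top
    have h2 : ContDiffAt ℝ ((⊤ : ℕ∞) : WithTop ℕ∞) (fun z : ℝ × ℝ => (s z.1, s z.2)) z :=
      ((csm.comp contDiff_fst).prodMk (csm.comp contDiff_snd)).contDiffAt
    exact ContDiffAt.comp z h1 h2
  · intro x y hy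
    have h := hff y x
    rw [hsz y hy] at h
    have h2 := hN2 _ (hnorm x y)
    have h3 := hN2 _ (hnorm y x)
    rw [hsz y hy] at h2 h3
    show N (s x, s y) = 0
    rw [hsz y hy]
    exact ff_eq_zero h3 h2 h
  · intro x y
    exact hN2 _ (hnorm x y)
  · intro x y
    have hN : HasFDerivAt N (fderiv ℝ N (s x, s y)) (s x, s y) :=
      ((hN1 _ (hnorm x y)).differentiableAt (by simp)).hasFDerivAt
    have hsd : HasDerivAt s (ε * deriv χ x) x :=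
      ((χd.differentiable (by simp) x).hasDerivAt).const_mul ε
    have hc : HasDerivAt (fun t => ((s t, s y) : ℝ × ℝ)) (ε * deriv χ x, 0) x :=
      hsd.prodMk (hasDerivAt_const x _)
    have hcomp := hN.comp_hasDerivAt x hc
    have cμ : ContDiff ℝ ((⊤ : ℕ∞) : WithTop ℕ∞) (uncurry fun x y => N (s x, s y)) := by
      rw [contDiff_iff_contDiffAt]
      intro z
      have h1 : ContDiffAt ℝ ((⊤ : ℕ∞) : WithTop ℕ∞) N (s z.1, s z.2) :=
        (hN1 _ (hnorm z.1 z.2)).of_le le_top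
      have h2 : ContDiffAt ℝ ((⊤ : ℕ∞) : WithTop ℕ∞) (fun z : ℝ × ℝ => (s z.1, s z.2)) z :=
        ((csm.comp contDiff_fst).prodMk (csm.comp contDiff_snd)).contDiffAt
      exact ContDiffAt.comp z h1 h2
    have hD : D1 (fun x y => N (s x, s y)) x y = fderiv ℝ N (s x, s y) (ε * deriv χ x, 0) :=
      (deriv_fst_of_contDiff (by simp) cμ x y).unique hcomp
    rw [hD]
    calc |fderiv ℝ N (s x, s y) (ε * deriv χ x, 0)|
        ≤ ‖fderiv ℝ N (s x, s y)‖ * ‖((ε * deriv χ x, 0) : ℝ × ℝ)‖ :=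
          (fderiv ℝ N (s x, s y)).le_opNorm _
      _ ≤ K * (ε * C) := by
        apply mul_le_mul (hN3 _ (hnorm x y)) _ (norm_nonneg _) hK.le
        rw [Prod.norm_def]
        simp only [norm_zero]
        apply max_le _ (by positivity)
        rw [Real.norm_eq_abs, abs_mul, abs_of_pos hε0]
        exact mul_le_mul_of_nonneg_left (hC x) hε0.le
      _ ≤ 1 / 40 := hε2
  · intro x y
    simp only [hseven]
  · intro x y hx
    simp only [hsz x hx, hsz 1 (by simp)]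
  · intro h0
    have h := hff 0 1
    have h2 := hN2 _ (hnorm 0 1)
    have h3 := hN2 _ (hnorm 1 0)
    have hs0 : s 0 = ε := by simp [hs, χ0]
    change N (s 1, s 0) = 0 at h0
    rw [h0, hs0] at h
    simp [ff] at h
    exact hε0.ne h

end Pool.Agent.helper41.Cubic
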