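import Pool.Agent.helper41.Cubic.Cross
import Pool.Agent.helper41.Cubic.Net

set_option autoImplicit false

open Function Set Filter Topology

namespace Pool.Agent.helper41.Cubic

/-- auxiliary polynomial -/
def n1 (m n : ℝ) : ℝ :=
  (2 * m + 1) ^ 3 + (m - 1) * (8 * m ^ 2 + 11 * m + 8) * n - (m + 2) ^ 3 * n ^ 2

theorem n1_pos {m n : ℝ} (hm : |m| ≤ 1 / 40) (hn : |n| ≤ 1 / 40) : 0 < n1 m n := by
  obtain ⟨m1, m2⟩ := abs_le.mp hm
  obtain ⟨k1, k2⟩ := abs_le.mp hn
  have h1 : (19 / 20 : ℝ) ^ 3 ≤ (2 * m + 1) ^ 3 := pow_le_pow_left₀ (by norm_num) (by linarith) 3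
  have h2 : |(m - 1) * (8 * m ^ 2 + 11 * m + 8)| ≤ 41 / 40 * 9 := by
    rw [abs_mul]
    apply mul_le_mul _ _ (abs_nonneg _) (by norm_num)
    · rw [abs_le]; constructor <;> linarith
    · rw [abs_le]; constructor <;> nlinarith
  have h3 : |(m - 1) * (8 * m ^ 2 + 11 * m + 8) * n| ≤ 41 / 40 * 9 * (1 / 40) := by
    rw [abs_mul]
    exact mul_le_mul h2 hn (abs_nonneg _) (by norm_num)
  have h4 : (m + 2) ^ 3 ≤ 3 ^ 3 := pow_le_pow_left₀ (by linarith) (by linarith) 3
  have h5 : n ^ 2 ≤ (1 / 40) ^ 2 := by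
    rw [← sq_abs]; exact pow_le_pow_left₀ (abs_nonneg _) hn 2
  have h6 : (m + 2) ^ 3 * n ^ 2 ≤ 3 ^ 3 * (1 / 40) ^ 2 :=
    mul_le_mul h4 h5 (sq_nonneg _) (by norm_num)
  have h7 := (abs_le.mp h3).1
  unfold n1
  norm_num at h1 h6 h7 ⊢
  linarith

theorem ff_core (m n m' n' : ℝ) :
    (1 + 2 * n) * cc m n * n3 m n * n' + n * (1 + n) *
      (3 * n3 m n * (2 * m' + 2 * (m' * n + m * n') + (2 * m * m' * n + m ^ 2 * n')) -
       2 * cc m n * (3 * (1 + m * n + 2 * m + 2 * n) ^ 2 * (m' * n + m * n' + 2 * m' + 2 * n') -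
        27 * ((m' * n + m * n') * ((1 + m) * (1 + n)) +
          m * n * (m' * (1 + n) + (1 + m) * n')))) =
    n1 m n * (-6 * n * (1 + n) * (1 + n + n ^ 2) * m' +
          (1 + m * n + 2 * m + 2 * n) * (1 + 2 * n + 2 * m * n + m * n ^ 2) * n') := by
  simp only [n3, cc, n1]
  ring

theorem hasDerivAt_ff {m n : ℝ → ℝ} {m' n' t : ℝ} (hm : HasDerivAt m m' t)
    (hn : HasDerivAt n n' t) (h : n3 (m t) (n t) ≠ 0) :
    HasDerivAt (fun t => ff (m t) (n t))
      (n1 (m t) (n t) * cc (m t) (n t) ^ 2 / n3 (m t) (n t) ^ 3 *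
        (-6 * n t * (1 + n t) * (1 + n t + n t ^ 2) * m' +
          (1 + m t * n t + 2 * m t + 2 * n t) * (1 + 2 * n t + 2 * m t * n t + m t * n t ^ 2) * n')) t := by
  have e1 : HasDerivAt (fun t => cc (m t) (n t))
      (2 * m' + 2 * (m' * n t + m t * n') + (2 * m t * m' * n t + m t ^ 2 * n')) t := by
    have := (((hm.const_mul 2).const_add 1).add ((hm.mul hn).const_mul 2)).add ((hm.pow 2).mul hn)
    refine (this.congr_of_eventuallyEq (Filter.Eventually.of_forall fun s => ?_)).congr_deriv ?_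
    · simp only [cc, Pi.add_apply, Pi.mul_apply, Pi.pow_apply]; ring
    · simp only [Pi.pow_apply]; ring
  have e2 : HasDerivAt (fun t => n3 (m t) (n t))
      (3 * (1 + m t * n t + 2 * m t + 2 * n t) ^ 2 * (m' * n t + m t * n' + 2 * m' + 2 * n') -
        27 * ((m' * n t + m t * n') * ((1 + m t) * (1 + n t)) +
          m t * n t * (m' * (1 + n t) + (1 + m t) * n'))) t := by
    have h1 := ((((hm.mul hn).const_add 1).add (hm.const_mul 2)).add (hn.const_mul 2)).pow 3
    have h2 := ((hm.mul hn).mul ((hm.const_add 1).mul (hn.const_add 1))).const_mul 27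
    refine ((h1.sub h2).congr_of_eventuallyEq (Filter.Eventually.of_forall fun s => ?_)).congr_deriv ?_
    · simp only [n3, Pi.add_apply, Pi.mul_apply, Pi.pow_apply, Pi.sub_apply]; ring
    · simp only [Pi.add_apply, Pi.mul_apply]; push_cast; ring
  have e3 := (hn.mul ((hn.const_add 1).mul (e1.pow 3))).div (e2.pow 2) (pow_ne_zero 2 h)
  refine (e3.congr_of_eventuallyEq (Filter.Eventually.of_forall fun s => ?_)).congr_deriv ?_
  · simp only [ff, Pi.mul_apply, Pi.pow_apply, Pi.div_apply]; ring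
  · simp only [Pi.mul_apply, Pi.pow_apply]
    have key := ff_core (m t) (n t) m' n'
    generalize hN : n3 (m t) (n t) = N at *
    generalize hC : cc (m t) (n t) = C at *
    generalize (2 * m' + 2 * (m' * n t + m t * n') + (2 * m t * m' * n t + m t ^ 2 * n')) = C' at *
    generalize (3 * (1 + m t * n t + 2 * m t + 2 * n t) ^ 2 *
      (m' * n t + m t * n' + 2 * m' + 2 * n') -
        27 * ((m' * n t + m t * n') * ((1 + m t) * (1 + n t)) +
          m t * n t * (m' * (1 + n t) + (1 + m t) * n'))) = N' at *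
    generalize (-6 * n t * (1 + n t) * (1 + n t + n t ^ 2) * m' +
          (1 + m t * n t + 2 * m t + 2 * n t) * (1 + 2 * n t + 2 * m t * n t + m t * n t ^ 2) * n')
          = R at *
    rw [div_mul_eq_mul_div, div_eq_div_iff (pow_ne_zero 2 (pow_ne_zero 2 h)) (pow_ne_zero 3 h)]
    push_cast
    linear_combination (C ^ 2 * N ^ 4) * key

/-- A slope function of a symmetric crossing of two beams. -/
structure Slope (g : ℝ → ℝ → ℝ) : Prop where
  smooth : ContDiff ℝ ((⊤ : ℕ∞) : WithTop ℕ∞) (uncurry g)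
  bound : ∀ x y, |g x y| ≤ 1 / 40
  pde : ∀ x y, 6 * g y x * (1 + g y x) * (1 + g y x + g y x ^ 2) * (g x y * D1 g x y + D2 g x y) =
    (1 + g x y * g y x + 2 * g x y + 2 * g y x) *
      (1 + 2 * g y x + 2 * g x y * g y x + g x y * g y x ^ 2) * (g x y * D2 g y x + D1 g y x)
  even : ∀ x y, g (-x) (-y) = g x y
  supp : ∀ x y, 2 ≤ |y| → g x y = 0
  flat : ∀ x x' y, 2 ≤ x → 2 ≤ x' → g x y = g x' y
  ne : ∃ y, g 2 y ≠ 0

theorem exists_slope : ∃ g, Slope g := by
  obtain ⟨μ, s, cμ, cs, h1, h2, h3, h4, h5, hff, hne, hsz⟩ := exists_net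
  obtain ⟨A, cA, hleaf, hodd, hfar, hflat, Q, hQ1, hQ2⟩ := crossing cμ h1 h2 h3 h4 h5
  set g : ℝ → ℝ → ℝ := fun x y => μ (A x y) (A y x) with hg
  have cg : ContDiff ℝ ((⊤ : ℕ∞) : WithTop ℕ∞) (uncurry g) := by
    have : ContDiff ℝ ((⊤ : ℕ∞) : WithTop ℕ∞) (fun z : ℝ × ℝ => μ (A z.1 z.2) (A z.2 z.1)) :=
      cμ.comp ((show ContDiff ℝ ((⊤ : ℕ∞) : WithTop ℕ∞) (fun z : ℝ × ℝ => A z.1 z.2) from cA).prodMk
        (contDiff_swap_uncurry cA))
    exact this
  have bg : ∀ x y, |g x y| ≤ 1 / 40 := fun x y => h2 _ _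
  refine ⟨g, cg, bg, ?_, ?_, ?_, ?_, ?_⟩
  · intro x y
    -- derivative of the invariant
    have hn3 : n3 (g x y) (g y x) ≠ 0 := by
      have := n3_pos (bg x y) (bg y x); linarith
    have g1 : HasDerivAt (fun t => g t y) (D1 g x y) x := deriv_fst_of_contDiff top_ne_zero' cg x y
    have g2 : HasDerivAt (fun t => g x t) (D2 g x y) y := deriv_snd_of_contDiff top_ne_zero' cg x y
    have g3 : HasDerivAt (fun t => g y t) (D2 g y x) x := deriv_snd_of_contDiff top_ne_zero' cg y x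
    have g4 : HasDerivAt (fun t => g t x) (D1 g y x) y := deriv_fst_of_contDiff top_ne_zero' cg y x
    have a1 : HasDerivAt (fun t => A t y) (D1 A x y) x := deriv_fst_of_contDiff top_ne_zero' cA x y
    have a2 : HasDerivAt (fun t => A x t) (D2 A x y) y := deriv_snd_of_contDiff top_ne_zero' cA x y
    have hs : HasDerivAt s (deriv s (A x y)) (A x y) :=
      (cs.differentiable (by simp) (A x y)).hasDerivAt
    have k1 : HasDerivAt (fun t => s (A t y)) (deriv s (A x y) * D1 A x y) x :=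
      HasDerivAt.comp x hs a1
    have k2 : HasDerivAt (fun t => s (A x t)) (deriv s (A x y) * D2 A x y) y :=
      HasDerivAt.comp y hs a2
    have f1 := hasDerivAt_ff (m := fun t => g t y) (n := fun t => g y t) g1 g3 hn3
    have f2 := hasDerivAt_ff (m := fun t => g x t) (n := fun t => g t x) g2 g4 hn3
    have e1 : (fun t => ff (g t y) (g y t)) = fun t => s (A t y) := by
      funext t; exact hff _ _
    have e2 : (fun t => ff (g x t) (g t x)) = fun t => s (A x t) := by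
      funext t; exact hff _ _
    rw [e1] at f1
    rw [e2] at f2
    have u1 := f1.unique k1
    have u2 := f2.unique k2
    have hl : g x y * D1 A x y + D2 A x y = 0 := hleaf x y
    have hn1 := (n1_pos (bg x y) (bg y x)).ne'
    have hcc := (cc_pos (bg x y) (bg y x)).ne'
    have hfac : n1 (g x y) (g y x) * cc (g x y) (g y x) ^ 2 / n3 (g x y) (g y x) ^ 3 ≠ 0 :=
      div_ne_zero (mul_ne_zero hn1 (pow_ne_zero 2 hcc)) (pow_ne_zero 3 hn3)
    generalize n1 (g x y) (g y x) * cc (g x y) (g y x) ^ 2 / n3 (g x y) (g y x) ^ 3 = κ at *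
    apply mul_left_cancel₀ hfac
    linear_combination (-(g x y)) * u1 - u2 - deriv s (A x y) * hl
  · intro x y
    simp only [hg, hodd, h4]
  · intro x y hy
    exact h1 _ _ (hfar y x hy)
  · intro x x' y hx hx'
    exact hflat x x' y hx hx'
  · refine ⟨Q, ?_⟩
    show μ (A 2 Q) (A Q 2) ≠ 0
    rw [hQ1, hQ2, h5 2 0 (by norm_num)]
    exact hne

end Pool.Agent.helper41.Cubic
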