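import Pool.Agent.helper41.Cubic.Data
import Pool.Agent.helper41.Cubic.Alg

set_option autoImplicit false

open Function Set Filter Topology

namespace Pool.Agent.helper41.Cubic

theorem quad_pos (m : ℝ) : 0 < 1 + m + m ^ 2 := by nlinarith [sq_nonneg (m + 1 / 2)]

theorem EE_pos (m n : ℝ) : 0 < EE m n := mul_pos (quad_pos m) (quad_pos n)

/-- conformal factor of the cometric -/
noncomputable def kap (m n : ℝ) : ℝ := (n3 m n) ^ ((2 : ℝ) / 3) / EE m n

/-- the triple of fields attached to two slopes -/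
noncomputable def W (m n : ℝ) : ℝ × ℝ × ℝ := (kap m n, Mn m n / EE m n, Nn m n / EE m n)

theorem kap_pos {m n : ℝ} (h : 0 < n3 m n) : 0 < kap m n :=
  div_pos (Real.rpow_pos_of_pos h _) (EE_pos m n)

section

variable {m n : ℝ → ℝ} {m' n' t : ℝ}

theorem hasDerivAt_n3 (hm : HasDerivAt m m' t) (hn : HasDerivAt n n' t) :
    HasDerivAt (fun t => n3 (m t) (n t)) (n3' (m t) (n t) m' n') t := by
  have h1 := ((((hm.mul hn).const_add 1).add (hm.const_mul 2)).add (hn.const_mul 2)).pow 3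
  have h2 := ((hm.mul hn).mul ((hm.const_add 1).mul (hn.const_add 1))).const_mul 27
  refine ((h1.sub h2).congr_of_eventuallyEq (Filter.Eventually.of_forall fun s => ?_)).congr_deriv ?_
  · simp only [n3, Pi.add_apply, Pi.mul_apply, Pi.pow_apply, Pi.sub_apply]; ring
  · simp only [Pi.add_apply, Pi.mul_apply, n3']; push_cast; ring

theorem hasDerivAt_EE (hm : HasDerivAt m m' t) (hn : HasDerivAt n n' t) :
    HasDerivAt (fun t => EE (m t) (n t)) (EE' (m t) (n t) m' n') t := by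
  have h1 := ((hm.const_add 1).add (hm.pow 2)).mul ((hn.const_add 1).add (hn.pow 2))
  refine (h1.congr_of_eventuallyEq (Filter.Eventually.of_forall fun s => ?_)).congr_deriv ?_
  · simp only [EE, Pi.add_apply, Pi.mul_apply, Pi.pow_apply]
  · simp only [Pi.add_apply, Pi.pow_apply, EE']; push_cast; ring

theorem hasDerivAt_Mn (hm : HasDerivAt m m' t) (hn : HasDerivAt n n' t) :
    HasDerivAt (fun t => Mn (m t) (n t)) (Mn' (m t) (n t) m' n') t := by
  have h1 := (hm.const_mul (-3)).mul ((hm.const_add 1).add (hm.mul hn))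
  refine (h1.congr_of_eventuallyEq (Filter.Eventually.of_forall fun s => ?_)).congr_deriv ?_
  · simp only [Mn, Pi.add_apply, Pi.mul_apply]
  · simp only [Pi.add_apply, Pi.mul_apply, Mn']

theorem hasDerivAt_Nn (hm : HasDerivAt m m' t) (hn : HasDerivAt n n' t) :
    HasDerivAt (fun t => Nn (m t) (n t)) (Nn' (m t) (n t) m' n') t := by
  have h1 := (hn.const_mul 3).mul ((hn.const_add 1).add (hm.mul hn))
  refine (h1.congr_of_eventuallyEq (Filter.Eventually.of_forall fun s => ?_)).congr_deriv ?_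
  · simp only [Nn, Pi.add_apply, Pi.mul_apply]
  · simp only [Pi.add_apply, Pi.mul_apply, Nn']

theorem hasDerivAt_kap (hm : HasDerivAt m m' t) (hn : HasDerivAt n n' t)
    (h : 0 < n3 (m t) (n t)) :
    HasDerivAt (fun t => kap (m t) (n t))
      (kap (m t) (n t) * ((2 * n3' (m t) (n t) m' n' * EE (m t) (n t) -
        3 * n3 (m t) (n t) * EE' (m t) (n t) m' n') / (3 * n3 (m t) (n t) * EE (m t) (n t)))) t := by
  have hE := (EE_pos (m t) (n t)).ne'
  have h1 := (hasDerivAt_n3 hm hn).rpow_const (p := (2 : ℝ) / 3) (Or.inl h.ne')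
  have h2 := h1.div (hasDerivAt_EE hm hn) hE
  refine (h2.congr_of_eventuallyEq (Filter.Eventually.of_forall fun s => ?_)).congr_deriv ?_
  · simp only [kap, Pi.div_apply]
  · simp only [kap]
    rw [Real.rpow_sub_one h.ne']
    have h3 := h.ne'
    field_simp

theorem hasDerivAt_W (hm : HasDerivAt m m' t) (hn : HasDerivAt n n' t)
    (h : 0 < n3 (m t) (n t)) :
    HasDerivAt (fun t => W (m t) (n t))
      (kap (m t) (n t) * ((2 * n3' (m t) (n t) m' n' * EE (m t) (n t) -
        3 * n3 (m t) (n t) * EE' (m t) (n t) m' n') / (3 * n3 (m t) (n t) * EE (m t) (n t))),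
       (Mn' (m t) (n t) m' n' * EE (m t) (n t) - Mn (m t) (n t) * EE' (m t) (n t) m' n') /
          EE (m t) (n t) ^ 2,
       (Nn' (m t) (n t) m' n' * EE (m t) (n t) - Nn (m t) (n t) * EE' (m t) (n t) m' n') /
          EE (m t) (n t) ^ 2) t := by
  have hE := (EE_pos (m t) (n t)).ne'
  exact (hasDerivAt_kap hm hn h).prodMk
    (((hasDerivAt_Mn hm hn).div (hasDerivAt_EE hm hn) hE).prodMk
      ((hasDerivAt_Nn hm hn).div (hasDerivAt_EE hm hn) hE))

end

theorem contDiff_W {f g : ℝ × ℝ → ℝ} (hf : ContDiff ℝ ((⊤ : ℕ∞) : WithTop ℕ∞) f)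
    (hg : ContDiff ℝ ((⊤ : ℕ∞) : WithTop ℕ∞) g) (h : ∀ z, 0 < n3 (f z) (g z)) :
    ContDiff ℝ ((⊤ : ℕ∞) : WithTop ℕ∞) (fun z => W (f z) (g z)) := by
  have h1 : ContDiff ℝ ((⊤ : ℕ∞) : WithTop ℕ∞) (fun z => n3 (f z) (g z)) := by
    unfold n3; fun_prop
  have h2 : ContDiff ℝ ((⊤ : ℕ∞) : WithTop ℕ∞) (fun z => EE (f z) (g z)) := by
    unfold EE; fun_prop
  have h3 : ContDiff ℝ ((⊤ : ℕ∞) : WithTop ℕ∞) (fun z => Mn (f z) (g z)) := by
    unfold Mn; fun_prop
  have h4 : ContDiff ℝ ((⊤ : ℕ∞) : WithTop ℕ∞) (fun z => Nn (f z) (g z)) := by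
    unfold Nn; fun_prop
  have hE : ∀ z, EE (f z) (g z) ≠ 0 := fun z => (EE_pos _ _).ne'
  exact ((h1.rpow_const_of_ne (fun z => (h z).ne')).div h2 hE).prodMk
    ((h3.div h2 hE).prodMk (h4.div h2 hE))

/-- the bracket equation for a triple and its two partial derivatives -/
def Pde (t tx ty : ℝ × ℝ × ℝ) : Prop := ∀ p q : ℝ,
  t.1 * ((2 * p - q) * (tx.2.1 * p + tx.2.2 * q) + (2 * q - p) * (ty.2.1 * p + ty.2.2 * q)) -
    tx.1 * ((2 * p * q - q ^ 2) + t.2.1 * (p ^ 2 - p * q + q ^ 2) +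
      (t.2.1 * p + t.2.2 * q) * (2 * p - q)) -
    ty.1 * ((p ^ 2 - 2 * p * q) + t.2.2 * (p ^ 2 - p * q + q ^ 2) +
      (t.2.1 * p + t.2.2 * q) * (2 * q - p)) = 0

theorem pde_W {m n mx my nx ny : ℝ} (hn3 : n3 m n ≠ 0) (hmn : 1 - m * n ≠ 0)
    (h1 : 6 * n * (1 + n) * (1 + n + n ^ 2) * (m * mx + my) =
      (1 + m * n + 2 * m + 2 * n) * (1 + 2 * n + 2 * m * n + m * n ^ 2) * (m * nx + ny))
    (h2 : 6 * m * (1 + m) * (1 + m + m ^ 2) * (nx + n * ny) =
      (1 + m * n + 2 * m + 2 * n) * (1 + 2 * m + 2 * m * n + m ^ 2 * n) * (mx + n * my)) :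
    Pde (W m n)
      (kap m n * ((2 * n3' m n mx nx * EE m n - 3 * n3 m n * EE' m n mx nx) /
          (3 * n3 m n * EE m n)),
       (Mn' m n mx nx * EE m n - Mn m n * EE' m n mx nx) / EE m n ^ 2,
       (Nn' m n mx nx * EE m n - Nn m n * EE' m n mx nx) / EE m n ^ 2)
      (kap m n * ((2 * n3' m n my ny * EE m n - 3 * n3 m n * EE' m n my ny) /
          (3 * n3 m n * EE m n)),
       (Mn' m n my ny * EE m n - Mn m n * EE' m n my ny) / EE m n ^ 2,
       (Nn' m n my ny * EE m n - Nn m n * EE' m n my ny) / EE m n ^ 2) := by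
  intro p q
  have hE : EE m n ≠ 0 := (EE_pos m n).ne'
  have key := core_Q m n mx my nx ny p q
  rw [show 6 * m * (1 + m) * (1 + m + m ^ 2) * (nx + n * ny) -
        (1 + m * n + 2 * m + 2 * n) * (1 + 2 * m + 2 * m * n + m ^ 2 * n) * (mx + n * my) = 0 from
        sub_eq_zero.2 h2,
      show 6 * n * (1 + n) * (1 + n + n ^ 2) * (m * mx + my) -
        (1 + m * n + 2 * m + 2 * n) * (1 + 2 * n + 2 * m * n + m * n ^ 2) * (m * nx + ny) = 0 from
        sub_eq_zero.2 h1, mul_zero, mul_zero, sub_zero] at key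
  have key2 := (mul_eq_zero.mp key).resolve_left hmn
  simp only [W]
  generalize kap m n = K
  generalize n3' m n mx nx = a1 at *
  generalize n3' m n my ny = a2 at *
  generalize EE' m n mx nx = a3 at *
  generalize EE' m n my ny = a4 at *
  generalize Mn' m n mx nx = a5 at *
  generalize Mn' m n my ny = a6 at *
  generalize Nn' m n mx nx = a7 at *
  generalize Nn' m n my ny = a8 at *
  generalize Mn m n = M at *
  generalize Nn m n = N at *
  generalize n3 m n = d at *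
  generalize EE m n = E at *
  field_simp
  linear_combination K * key2

end Pool.Agent.helper41.Cubic
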