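import Pool.Agent.helper41.Cubic.Field

set_option autoImplicit false

open Function Set Filter Topology

namespace Pool.Agent.helper41.Cubic

/-- smooth solution at a point -/
def Good (T : ℝ × ℝ → ℝ × ℝ × ℝ) (z : ℝ × ℝ) : Prop :=
  ContDiffAt ℝ ((⊤ : ℕ∞) : WithTop ℕ∞) T z ∧
    Pde (T z) (fderiv ℝ T z (1, 0)) (fderiv ℝ T z (0, 1))

theorem good_congr {T T' : ℝ × ℝ → ℝ × ℝ × ℝ} {z : ℝ × ℝ} (h : T =ᶠ[𝓝 z] T') (hT : Good T' z) :
    Good T z := by
  refine ⟨hT.1.congr_of_eventuallyEq h, ?_⟩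
  rw [h.fderiv_eq, h.eq_of_nhds]
  exact hT.2

theorem pde_smul {t tx ty : ℝ × ℝ × ℝ} (c : ℝ) (h : Pde t tx ty) : Pde t (c • tx) (c • ty) := by
  intro p q
  have := h p q
  simp only [Prod.smul_fst, Prod.smul_snd, smul_eq_mul]
  linear_combination c * this

/-- The cyclic rotation of the plane. -/
noncomputable def rotM : ℝ × ℝ →L[ℝ] ℝ × ℝ := mat 0 1 (-1) (-1)

theorem rotM_apply (z : ℝ × ℝ) : rotM z = (z.2, -z.1 - z.2) := by
  simp [rotM]; ring

/-- The action of the rotation on the fields. -/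
noncomputable def rotL : ℝ × ℝ × ℝ →L[ℝ] ℝ × ℝ × ℝ :=
  (ContinuousLinearMap.fst ℝ ℝ (ℝ × ℝ)).prod
    ((mat (-1) (-1) 1 0).comp (ContinuousLinearMap.snd ℝ ℝ (ℝ × ℝ)))

theorem rotL_apply (t : ℝ × ℝ × ℝ) : rotL t = (t.1, -t.2.1 - t.2.2, t.2.1) := by
  simp [rotL]; ring

theorem pde_rot {t tx ty : ℝ × ℝ × ℝ} (h : Pde t tx ty) :
    Pde (rotL t) (rotL (-ty)) (rotL (tx - ty)) := by
  intro p q
  have := h (q - p) (-p)
  simp only [rotL_apply, Prod.fst_neg, Prod.snd_neg, Prod.fst_sub, Prod.snd_sub]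
  linear_combination this

theorem good_rot {T : ℝ × ℝ → ℝ × ℝ × ℝ} {z : ℝ × ℝ} (h : Good T (rotM z)) :
    Good (fun w => rotL (T (rotM w))) z := by
  have hM : ContDiffAt ℝ ((⊤ : ℕ∞) : WithTop ℕ∞) (fun w => rotM w) z := rotM.contDiff.contDiffAt
  have h1 : ContDiffAt ℝ ((⊤ : ℕ∞) : WithTop ℕ∞) (fun w => T (rotM w)) z :=
    ContDiffAt.comp z h.1 hM
  refine ⟨rotL.contDiff.contDiffAt.comp z h1, ?_⟩
  have hd : HasFDerivAt T (fderiv ℝ T (rotM z)) (rotM z) :=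
    (h.1.differentiableAt (by simp)).hasFDerivAt
  have hd2 : HasFDerivAt (fun w => rotL (T (rotM w)))
      (rotL.comp ((fderiv ℝ T (rotM z)).comp rotM)) z :=
    rotL.hasFDerivAt.comp z (hd.comp z rotM.hasFDerivAt)
  rw [hd2.fderiv]
  simp only [ContinuousLinearMap.comp_apply]
  have e1 : rotM (1, 0) = -((0, 1) : ℝ × ℝ) := by rw [rotM_apply]; ext <;> simp
  have e2 : rotM (0, 1) = ((1, 0) : ℝ × ℝ) - (0, 1) := by rw [rotM_apply]; ext <;> simp
  rw [e1, e2, map_neg, map_sub]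
  exact pde_rot h.2

theorem good_affine {T : ℝ × ℝ → ℝ × ℝ × ℝ} {z : ℝ × ℝ} (k c1 c2 : ℝ)
    (h : Good T (k * z.1 + c1, k * z.2 + c2)) :
    Good (fun w => T (k * w.1 + c1, k * w.2 + c2)) z := by
  have hA : ContDiffAt ℝ ((⊤ : ℕ∞) : WithTop ℕ∞)
      (fun w : ℝ × ℝ => ((k * w.1 + c1, k * w.2 + c2) : ℝ × ℝ)) z := by fun_prop
  refine ⟨ContDiffAt.comp z h.1 hA, ?_⟩
  have hd : HasFDerivAt T (fderiv ℝ T (k * z.1 + c1, k * z.2 + c2)) (k * z.1 + c1, k * z.2 + c2) :=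
    (h.1.differentiableAt (by simp)).hasFDerivAt
  have hA' : HasFDerivAt (fun w : ℝ × ℝ => ((k * w.1 + c1, k * w.2 + c2) : ℝ × ℝ)) (mat k 0 0 k) z := by
    have h1 : HasFDerivAt (fun w : ℝ × ℝ => k * w.1 + c1) (dmat k 0) z := by
      refine (((hasFDerivAt_fst (𝕜 := ℝ) (E := ℝ) (F := ℝ) (p := z)).const_mul k).add_const c1).congr_fderiv ?_
      ext <;> simp
    have h2 : HasFDerivAt (fun w : ℝ × ℝ => k * w.2 + c2) (dmat 0 k) z := by
      refine (((hasFDerivAt_snd (𝕜 := ℝ) (E := ℝ) (F := ℝ) (p := z)).const_mul k).add_const c2).congr_fderiv ?_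
      ext <;> simp
    exact h1.prodMk h2
  have hd2 : HasFDerivAt (fun w : ℝ × ℝ => T (k * w.1 + c1, k * w.2 + c2))
      ((fderiv ℝ T (k * z.1 + c1, k * z.2 + c2)).comp (mat k 0 0 k)) z := hd.comp z hA'
  rw [hd2.fderiv]
  simp only [ContinuousLinearMap.comp_apply]
  have e1 : mat k 0 0 k (1, 0) = k • ((1, 0) : ℝ × ℝ) := by ext <;> simp
  have e2 : mat k 0 0 k (0, 1) = k • ((0, 1) : ℝ × ℝ) := by ext <;> simp
  rw [e1, e2, map_smul, map_smul]
  exact pde_smul k h.2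

/-- the field of a crossing -/
noncomputable def GG (g : ℝ → ℝ → ℝ) (z : ℝ × ℝ) : ℝ × ℝ × ℝ := W (g z.1 z.2) (g z.2 z.1)

theorem contDiff_GG {g : ℝ → ℝ → ℝ} (hg : Slope g) :
    ContDiff ℝ ((⊤ : ℕ∞) : WithTop ℕ∞) (GG g) := by
  apply contDiff_W
  · exact hg.smooth
  · exact contDiff_swap_uncurry hg.smooth
  · intro z
    have := n3_pos (hg.bound z.1 z.2) (hg.bound z.2 z.1)
    linarith

theorem good_GG {g : ℝ → ℝ → ℝ} (hg : Slope g) (z : ℝ × ℝ) : Good (GG g) z := by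
  refine ⟨(contDiff_GG hg).contDiffAt, ?_⟩
  obtain ⟨x, y⟩ := z
  have hd : HasFDerivAt (GG g) (fderiv ℝ (GG g) (x, y)) (x, y) :=
    ((contDiff_GG hg).differentiable (by simp) (x, y)).hasFDerivAt
  have c1 : HasDerivAt (fun t : ℝ => ((t, y) : ℝ × ℝ)) (1, 0) x :=
    (hasDerivAt_id x).prodMk (hasDerivAt_const x y)
  have c2 : HasDerivAt (fun t : ℝ => ((x, t) : ℝ × ℝ)) (0, 1) y :=
    (hasDerivAt_const y x).prodMk (hasDerivAt_id y)
  have d1 : HasDerivAt (fun t => GG g (t, y)) (fderiv ℝ (GG g) (x, y) (1, 0)) x := by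
    have := HasFDerivAt.comp_hasDerivAt (f := fun t : ℝ => ((t, y) : ℝ × ℝ)) x hd c1
    exact this
  have d2 : HasDerivAt (fun t => GG g (x, t)) (fderiv ℝ (GG g) (x, y) (0, 1)) y := by
    have := HasFDerivAt.comp_hasDerivAt (f := fun t : ℝ => ((x, t) : ℝ × ℝ)) y hd c2
    exact this
  have g1 : HasDerivAt (fun t => g t y) (D1 g x y) x :=
    deriv_fst_of_contDiff top_ne_zero' hg.smooth x y
  have g2 : HasDerivAt (fun t => g x t) (D2 g x y) y :=
    deriv_snd_of_contDiff top_ne_zero' hg.smooth x y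
  have g3 : HasDerivAt (fun t => g y t) (D2 g y x) x :=
    deriv_snd_of_contDiff top_ne_zero' hg.smooth y x
  have g4 : HasDerivAt (fun t => g t x) (D1 g y x) y :=
    deriv_fst_of_contDiff top_ne_zero' hg.smooth y x
  have hn3 : 0 < n3 (g x y) (g y x) := by
    have := n3_pos (hg.bound x y) (hg.bound y x); linarith
  have e1 := hasDerivAt_W (m := fun t => g t y) (n := fun t => g y t) g1 g3 hn3
  have e2 := hasDerivAt_W (m := fun t => g x t) (n := fun t => g t x) g2 g4 hn3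
  rw [d1.unique e1, d2.unique e2]
  apply pde_W hn3.ne'
  · have hb1 := abs_le.mp (hg.bound x y)
    have hb2 := abs_le.mp (hg.bound y x)
    have : g x y * g y x < 1 := by nlinarith
    intro h; linarith
  · exact hg.pde x y
  · have := hg.pde y x
    rw [mul_comm (g y x) (g x y)] at this
    linear_combination this

end Pool.Agent.helper41.Cubic
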