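import Mathlib

set_option autoImplicit false

open Function Set Filter Topology MeasureTheory intervalIntegral

namespace Pool.Agent.helper41.Cubic

/-- Differentiation under the integral sign, jointly continuous version. -/
theorem hasDerivAt_par {k k' : ℝ → ℝ → ℝ}
    (hk : ∀ x t, HasDerivAt (fun s => k s t) (k' x t) x)
    (ck : Continuous (uncurry k)) (ck' : Continuous (uncurry k')) (a b x : ℝ) :
    HasDerivAt (fun s => ∫ t in a..b, k s t) (∫ t in a..b, k' x t) x := by
  have hcomp : IsCompact (Metric.closedBall x 1 ×ˢ uIcc a b) :=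
    (isCompact_closedBall x 1).prod isCompact_uIcc
  obtain ⟨C, hC⟩ := hcomp.exists_bound_of_continuousOn ck'.continuousOn
  have hs : Metric.ball x 1 ∈ 𝓝 x := Metric.ball_mem_nhds x one_pos
  refine (intervalIntegral.hasDerivAt_integral_of_dominated_loc_of_deriv_le (F := k) (F' := k')
    (bound := fun _ => C) (s := Metric.ball x 1) hs ?_ ?_ ?_ ?_ ?_ ?_).2
  · refine Filter.Eventually.of_forall fun s => ?_
    exact (ck.comp (Continuous.prodMk_right s)).aestronglyMeasurable
  · exact (ck.comp (Continuous.prodMk_right x)).intervalIntegrable _ _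
  · exact (ck'.comp (Continuous.prodMk_right x)).aestronglyMeasurable
  · refine Filter.Eventually.of_forall fun t ht s hs' => ?_
    exact hC (s, t) ⟨Metric.ball_subset_closedBall hs', uIoc_subset_uIcc ht⟩
  · exact intervalIntegrable_const
  · exact Filter.Eventually.of_forall fun t _ s _ => hk s t

/-- The derivative with prescribed coordinate partial derivatives. -/
noncomputable def dmat (p q : ℝ) : ℝ × ℝ →L[ℝ] ℝ :=
  p • ContinuousLinearMap.fst ℝ ℝ ℝ + q • ContinuousLinearMap.snd ℝ ℝ ℝ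

@[simp] theorem dmat_apply (p q : ℝ) (v : ℝ × ℝ) : dmat p q v = p * v.1 + q * v.2 := by
  simp [dmat]

/-- A function with jointly continuous partial derivatives is differentiable. -/
theorem hasFDerivAt_of_coord {f f1 f2 : ℝ → ℝ → ℝ}
    (h1 : ∀ x y, HasDerivAt (fun s => f s y) (f1 x y) x)
    (h2 : ∀ x y, HasDerivAt (fun s => f x s) (f2 x y) y)
    (c1 : Continuous (uncurry f1)) (c2 : Continuous (uncurry f2)) (z : ℝ × ℝ) :
    HasFDerivAt (uncurry f) (dmat (f1 z.1 z.2) (f2 z.1 z.2)) z := by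
  have key := hasStrictFDerivAt_uncurry_coprod (𝕜 := ℝ) (u := z) (f := f)
    (f₁ := fun x y => f1 x y • ContinuousLinearMap.id ℝ ℝ)
    (f₂ := fun x y => f2 x y • ContinuousLinearMap.id ℝ ℝ)
    (Filter.Eventually.of_forall fun v =>
      ((h1 v.1 v.2).hasFDerivAt).congr_fderiv
        (show _ = f1 v.1 v.2 • ContinuousLinearMap.id ℝ ℝ by ext; simp))
    (Filter.Eventually.of_forall fun v =>
      ((h2 v.1 v.2).hasFDerivAt).congr_fderiv
        (show _ = f2 v.1 v.2 • ContinuousLinearMap.id ℝ ℝ by ext; simp))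
    (by
      have : Continuous (fun v : ℝ × ℝ => f1 v.1 v.2 • ContinuousLinearMap.id ℝ ℝ) :=
        (show Continuous fun v : ℝ × ℝ => f1 v.1 v.2 from c1).smul continuous_const
      exact this.continuousAt)
    (by
      have : Continuous (fun v : ℝ × ℝ => f2 v.1 v.2 • ContinuousLinearMap.id ℝ ℝ) :=
        (show Continuous fun v : ℝ × ℝ => f2 v.1 v.2 from c2).smul continuous_const
      exact this.continuousAt)
  have h : HasFDerivAt (uncurry f) ((f1 z.1 z.2 • ContinuousLinearMap.id ℝ ℝ).coprod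
    (f2 z.1 z.2 • ContinuousLinearMap.id ℝ ℝ)) z := key.hasFDerivAt
  exact h.congr_fderiv (by ext <;> simp [dmat])

theorem contDiff_dmat {n : WithTop ℕ∞} {f1 f2 : ℝ → ℝ → ℝ}
    (c1 : ContDiff ℝ n (uncurry f1)) (c2 : ContDiff ℝ n (uncurry f2)) :
    ContDiff ℝ n (fun z : ℝ × ℝ => dmat (f1 z.1 z.2) (f2 z.1 z.2)) := by
  unfold dmat
  exact ((show ContDiff ℝ n (fun z : ℝ × ℝ => f1 z.1 z.2) from c1).smul contDiff_const).add
    ((show ContDiff ℝ n (fun z : ℝ × ℝ => f2 z.1 z.2) from c2).smul contDiff_const)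

/-- Partial derivatives of class `C^n` give class `C^{n+1}`. -/
theorem contDiff_succ_of_coord {n : ℕ} {f f1 f2 : ℝ → ℝ → ℝ}
    (h1 : ∀ x y, HasDerivAt (fun s => f s y) (f1 x y) x)
    (h2 : ∀ x y, HasDerivAt (fun s => f x s) (f2 x y) y)
    (c1 : ContDiff ℝ n (uncurry f1)) (c2 : ContDiff ℝ n (uncurry f2)) :
    ContDiff ℝ (n + 1) (uncurry f) := by
  rw [contDiff_succ_iff_hasFDerivAt]
  exact ⟨_, contDiff_dmat c1 c2,
    fun z => hasFDerivAt_of_coord h1 h2 c1.continuous c2.continuous z⟩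

theorem deriv_fst_of_contDiff {f : ℝ → ℝ → ℝ} {n : WithTop ℕ∞} (hn : n ≠ 0)
    (hf : ContDiff ℝ n (uncurry f)) (x y : ℝ) :
    HasDerivAt (fun s => f s y) (fderiv ℝ (uncurry f) (x, y) (1, 0)) x := by
  have h := (hf.differentiable hn (x, y)).hasFDerivAt
  have h2 : HasDerivAt (fun s : ℝ => (s, y)) ((1 : ℝ), (0 : ℝ)) x :=
    (hasDerivAt_id x).prodMk (hasDerivAt_const x y)
  exact h.comp_hasDerivAt x h2

theorem deriv_snd_of_contDiff {f : ℝ → ℝ → ℝ} {n : WithTop ℕ∞} (hn : n ≠ 0)
    (hf : ContDiff ℝ n (uncurry f)) (x y : ℝ) :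
    HasDerivAt (fun s => f x s) (fderiv ℝ (uncurry f) (x, y) (0, 1)) y := by
  have h := (hf.differentiable hn (x, y)).hasFDerivAt
  have h2 : HasDerivAt (fun s : ℝ => (x, s)) ((0 : ℝ), (1 : ℝ)) y :=
    (hasDerivAt_const y x).prodMk (hasDerivAt_id y)
  exact h.comp_hasDerivAt y h2

/-- The two coordinate derivatives. -/
noncomputable def D1 (f : ℝ → ℝ → ℝ) (x y : ℝ) : ℝ := fderiv ℝ (uncurry f) (x, y) (1, 0)
/-- The two coordinate derivatives. -/
noncomputable def D2 (f : ℝ → ℝ → ℝ) (x y : ℝ) : ℝ := fderiv ℝ (uncurry f) (x, y) (0, 1)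

theorem contDiff_D1 {f : ℝ → ℝ → ℝ} {n : ℕ} (hf : ContDiff ℝ (n + 1) (uncurry f)) :
    ContDiff ℝ n (uncurry (D1 f)) := by
  have h : ContDiff ℝ n (fderiv ℝ (uncurry f)) := hf.fderiv_right le_rfl
  exact h.clm_apply contDiff_const

theorem contDiff_D2 {f : ℝ → ℝ → ℝ} {n : ℕ} (hf : ContDiff ℝ (n + 1) (uncurry f)) :
    ContDiff ℝ n (uncurry (D2 f)) := by
  have h : ContDiff ℝ n (fderiv ℝ (uncurry f)) := hf.fderiv_right le_rfl
  exact h.clm_apply contDiff_const

/-- The primitive in the second variable. -/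
noncomputable def J (h : ℝ → ℝ → ℝ) (x y : ℝ) : ℝ := ∫ t in (0 : ℝ)..y, h x t

theorem J_snd {h : ℝ → ℝ → ℝ} (ch : Continuous (uncurry h)) (x y : ℝ) :
    HasDerivAt (fun s => J h x s) (h x y) y := by
  have c : Continuous (fun t => h x t) := ch.comp (Continuous.prodMk_right x)
  exact intervalIntegral.integral_hasDerivAt_right (c.intervalIntegrable _ _)
    c.aestronglyMeasurable.stronglyMeasurableAtFilter c.continuousAt

theorem J_fst {h h' : ℝ → ℝ → ℝ} (hh : ∀ x t, HasDerivAt (fun s => h s t) (h' x t) x)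
    (ch : Continuous (uncurry h)) (ch' : Continuous (uncurry h')) (x y : ℝ) :
    HasDerivAt (fun s => J h s y) (J h' x y) x :=
  hasDerivAt_par hh ch ch' 0 y x

theorem continuous_J {h : ℝ → ℝ → ℝ} (ch : Continuous (uncurry h)) :
    Continuous (uncurry (J h)) := by
  have : Continuous (fun z : ℝ × ℝ => ∫ t in (0 : ℝ)..z.2, h z.1 t) := by
    apply intervalIntegral.continuous_parametric_intervalIntegral_of_continuous
    · exact ch.comp ((continuous_fst.comp continuous_fst).prodMk continuous_snd)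
    · exact continuous_snd
  exact this

theorem contDiff_J_nat (n : ℕ) : ∀ {h : ℝ → ℝ → ℝ}, ContDiff ℝ n (uncurry h) →
    ContDiff ℝ n (uncurry (J h)) := by
  induction n with
  | zero =>
    intro h ch
    rw [Nat.cast_zero, contDiff_zero] at *
    exact continuous_J ch
  | succ n ih =>
    intro h ch
    have ch' : ContDiff ℝ (n + 1) (uncurry h) := by exact_mod_cast ch
    have hd := contDiff_D1 ch'
    have e : ContDiff ℝ (n + 1) (uncurry (J h)) := by
      refine contDiff_succ_of_coord (f1 := J (D1 h)) (f2 := h) ?_ ?_ (ih hd)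
        (ch'.of_le (by exact_mod_cast Nat.le_succ n))
      · intro x y
        exact J_fst (fun x t => deriv_fst_of_contDiff (by simp) ch' x t) ch'.continuous
          hd.continuous x y
      · intro x y
        exact J_snd ch'.continuous x y
    exact_mod_cast e

theorem contDiff_J {h : ℝ → ℝ → ℝ} (ch : ContDiff ℝ ((⊤ : ℕ∞) : WithTop ℕ∞) (uncurry h)) :
    ContDiff ℝ ((⊤ : ℕ∞) : WithTop ℕ∞) (uncurry (J h)) := by
  rw [contDiff_infty] at *
  exact fun n => contDiff_J_nat n (ch n)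

end Pool.Agent.helper41.Cubic
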