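import Pool.Agent.helper41.Cubic.Glue

set_option autoImplicit false

open Function Set Filter Topology

namespace Pool.Agent.helper41.Cubic

/-- centred fractional part -/
noncomputable def fr (t : ℝ) : ℝ := Int.fract t - 1 / 2

theorem fr_ge (t : ℝ) : -(1 / 2) ≤ fr t := by
  have := Int.fract_nonneg t
  unfold fr; linarith

theorem fr_lt (t : ℝ) : fr t < 1 / 2 := by
  have := Int.fract_lt_one t
  unfold fr; linarith

theorem fr_add_one (t : ℝ) : fr (t + 1) = fr t := by simp [fr]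

theorem fr_sub_one (t : ℝ) : fr (t - 1) = fr t := by simp [fr]

theorem continuous_abs_fr : Continuous (fun t => |fr t|) := by
  have h : ContinuousOn (fun t : ℝ => |t - 1 / 2|) (Icc 0 1) := by fun_prop
  have := h.comp_fract'' (by norm_num)
  exact this

/-- crossing field in unit coordinates -/
noncomputable def CF (g : ℝ → ℝ → ℝ) (z : ℝ × ℝ) : ℝ × ℝ × ℝ := GG g (24 * z.1 + 0, 24 * z.2 + 0)

theorem good_CF {g : ℝ → ℝ → ℝ} (hg : Slope g) (z : ℝ × ℝ) : Good (CF g) z :=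
  good_affine 24 0 0 (good_GG hg _)

theorem CF_apply (g : ℝ → ℝ → ℝ) (x y : ℝ) :
    CF g (x, y) = W (g (24 * x) (24 * y)) (g (24 * y) (24 * x)) := by
  simp [CF, GG]

theorem supp24 {g : ℝ → ℝ → ℝ} (hg : Slope g) (x : ℝ) {y : ℝ} (hy : 1 / 12 ≤ |y|) :
    g x (24 * y) = 0 := by
  apply hg.supp
  rw [abs_mul, abs_of_pos (by norm_num : (0 : ℝ) < 24)]
  linarith

theorem W_zero : W 0 0 = (1, 0, 0) := by
  simp [W, kap, Mn, Nn, EE, n3]

theorem W_swap (m : ℝ) : rotL (W 0 m) = W m 0 := by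
  rw [rotL_apply]
  simp only [W, kap, Mn, Nn, EE, n3]
  refine Prod.ext ?_ (Prod.ext ?_ ?_)
  · simp only; congr 1
    · congr 1; ring
    · ring
  · simp only; ring
  · simp only; ring

/-- three charts of the field on the torus -/
noncomputable def T3 (g : ℝ → ℝ → ℝ) (z : ℝ × ℝ) : ℝ × ℝ × ℝ := CF g (fr z.1, fr z.2)
/-- three charts of the field on the torus -/
noncomputable def T1 (g : ℝ → ℝ → ℝ) (z : ℝ × ℝ) : ℝ × ℝ × ℝ := rotL (T3 g (rotM z))
/-- three charts of the field on the torus -/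
noncomputable def T2 (g : ℝ → ℝ → ℝ) (z : ℝ × ℝ) : ℝ × ℝ × ℝ := rotL (T1 g (rotM z))

/-- domains of the charts -/
def O3 (z : ℝ × ℝ) : Prop := 1 / 12 < |fr (-z.1 - z.2)|
/-- domains of the charts -/
def O1 (z : ℝ × ℝ) : Prop := 1 / 12 < |fr z.1|
/-- domains of the charts -/
def O2 (z : ℝ × ℝ) : Prop := 1 / 12 < |fr z.2|

theorem O3_rot (z : ℝ × ℝ) : O3 (rotM z) ↔ O1 z := by
  rw [rotM_apply]; unfold O3 O1
  have : -z.2 - (-z.1 - z.2) = z.1 := by ring
  rw [this]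

theorem O1_rot (z : ℝ × ℝ) : O1 (rotM z) ↔ O2 z := by
  rw [rotM_apply]; unfold O1 O2; rfl

theorem O2_rot (z : ℝ × ℝ) : O2 (rotM z) ↔ O3 z := by
  rw [rotM_apply]; unfold O2 O3; rfl

theorem rotM3 (z : ℝ × ℝ) : rotM (rotM (rotM z)) = z := by
  simp only [rotM_apply]
  refine Prod.ext ?_ ?_
  · show -z.2 - (-z.1 - z.2) = z.1
    ring
  · show -(-z.1 - z.2) - (-z.2 - (-z.1 - z.2)) = z.2
    ring

theorem rotL3 (t : ℝ × ℝ × ℝ) : rotL (rotL (rotL t)) = t := by
  simp only [rotL_apply]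
  refine Prod.ext rfl (Prod.ext ?_ ?_)
  · show -(-(-t.2.1 - t.2.2) - t.2.1) - (-t.2.1 - t.2.2) = t.2.1
    ring
  · show -(-t.2.1 - t.2.2) - t.2.1 = t.2.2
    ring

theorem fr_sum (a b : ℝ) : ∃ k : ℤ, fr a + fr b + fr (-a - b) = k - 3 / 2 := by
  refine ⟨-(⌊a⌋ + ⌊b⌋ + ⌊-a - b⌋), ?_⟩
  unfold fr Int.fract
  push_cast
  ring

theorem cover (z : ℝ × ℝ) : O3 z ∨ O1 z ∨ O2 z := by
  by_contra hcon
  simp only [not_or, O3, O1, O2, not_lt] at hcon
  obtain ⟨h3, h1, h2⟩ := hcon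
  obtain ⟨k, hk⟩ := fr_sum z.1 z.2
  rw [abs_le] at h1 h2 h3
  have k1 : (1 : ℝ) < k := by linarith
  have k2 : (k : ℝ) < 2 := by linarith
  have k1' : 1 < k := by exact_mod_cast k1
  have k2' : k < 2 := by exact_mod_cast k2
  omega

theorem cons31 {g : ℝ → ℝ → ℝ} (hg : Slope g) {z : ℝ × ℝ} (h3 : O3 z) (h1 : O1 z) :
    T3 g z = T1 g z := by
  unfold T1
  rw [rotM_apply]
  unfold T3
  simp only [CF_apply]
  unfold O3 at h3
  unfold O1 at h1
  obtain ⟨k, hk⟩ := fr_sum z.1 z.2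
  have bx1 := fr_ge z.1
  have bx2 := fr_lt z.1
  have bw1 := fr_ge (-z.1 - z.2)
  have bw2 := fr_lt (-z.1 - z.2)
  generalize fr z.1 = x at *
  generalize fr z.2 = y at *
  generalize fr (-z.1 - z.2) = w at *
  rw [supp24 hg (24 * y) h1.le, supp24 hg (24 * y) h3.le, W_swap]
  rcases le_or_gt (1 / 12) |y| with hy | hy
  · rw [supp24 hg (24 * x) hy, supp24 hg (24 * w) hy]
  · rw [abs_lt] at hy
    have k1 : (0 : ℝ) < k := by linarith
    have k2 : (k : ℝ) < 3 := by linarith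
    have k1' : 0 < k := by exact_mod_cast k1
    have k2' : k < 3 := by exact_mod_cast k2
    have hk12 : k = 1 ∨ k = 2 := by omega
    congr 1
    rcases hk12 with rfl | rfl
    · -- both negative
      push_cast at hk
      have hx : x < -(1 / 12) := by
        rcases lt_abs.mp h1 with h | h
        · exfalso
          rcases lt_abs.mp h3 with h' | h' <;> linarith
        · linarith
      have hw : w < -(1 / 12) := by
        rcases lt_abs.mp h3 with h | h
        · exfalso; linarith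
        · linarith
      rw [← hg.even (24 * x), ← hg.even (24 * w)]
      exact hg.flat _ _ _ (by linarith) (by linarith)
    · push_cast at hk
      have hx : 1 / 12 < x := by
        rcases lt_abs.mp h1 with h | h
        · exact h
        · exfalso
          rcases lt_abs.mp h3 with h' | h' <;> linarith
      have hw : 1 / 12 < w := by
        rcases lt_abs.mp h3 with h | h
        · exact h
        · exfalso; linarith
      exact hg.flat _ _ _ (by linarith) (by linarith)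

theorem cons12 {g : ℝ → ℝ → ℝ} (hg : Slope g) {z : ℝ × ℝ} (h1 : O1 z) (h2 : O2 z) :
    T1 g z = T2 g z := by
  unfold T2
  rw [← cons31 hg ((O3_rot z).2 h1) ((O1_rot z).2 h2)]
  rfl

theorem cons23 {g : ℝ → ℝ → ℝ} (hg : Slope g) {z : ℝ × ℝ} (h2 : O2 z) (h3 : O3 z) :
    T2 g z = T3 g z := by
  have e := cons12 hg ((O1_rot z).2 h2) ((O2_rot z).2 h3)
  have : T2 g z = rotL (T2 g (rotM z)) := by rw [← e]; rfl
  rw [this]
  show rotL (rotL (rotL (T3 g (rotM (rotM (rotM z)))))) = T3 g z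
  rw [rotM3, rotL3]

theorem good_const (t : ℝ × ℝ × ℝ) (z : ℝ × ℝ) : Good (fun _ => t) z := by
  refine ⟨contDiffAt_const, ?_⟩
  rw [fderiv_fun_const]
  intro p q
  simp

theorem fr_eventually {t : ℝ} (h : Int.fract t ≠ 0) :
    ∀ᶠ s in 𝓝 t, fr s = s - ⌊t⌋ - 1 / 2 := by
  have h1 : (⌊t⌋ : ℝ) < t := by
    have := Int.fract_nonneg t
    have h2 : 0 < Int.fract t := lt_of_le_of_ne this (Ne.symm h)
    unfold Int.fract at h2; linarith
  have h2 : t < ⌊t⌋ + 1 := Int.lt_floor_add_one t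
  filter_upwards [Ioo_mem_nhds h1 h2] with s hs
  have : ⌊s⌋ = ⌊t⌋ := Int.floor_eq_iff.2 ⟨hs.1.le, hs.2⟩
  unfold fr Int.fract
  rw [this]

theorem good_T3 {g : ℝ → ℝ → ℝ} (hg : Slope g) {z : ℝ × ℝ} (h3 : O3 z) : Good (T3 g) z := by
  by_cases hc : 1 / 12 < |fr z.1| ∧ 1 / 12 < |fr z.2|
  · -- locally trivial
    have ev1 : ∀ᶠ w in 𝓝 z, 1 / 12 < |fr w.1| :=
      (continuous_abs_fr.comp continuous_fst).continuousAt.eventually (lt_mem_nhds hc.1)
    have ev2 : ∀ᶠ w in 𝓝 z, 1 / 12 < |fr w.2| :=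
      (continuous_abs_fr.comp continuous_snd).continuousAt.eventually (lt_mem_nhds hc.2)
    apply good_congr (T' := fun _ => (1, 0, 0)) _ (good_const _ z)
    filter_upwards [ev1, ev2] with w h1 h2
    unfold T3
    rw [CF_apply, supp24 hg _ h2.le, supp24 hg _ h1.le, W_zero]
  · have hz1 : Int.fract z.1 ≠ 0 := by
      intro h0
      apply hc
      have e1 : |fr z.1| = 1 / 2 := by unfold fr; rw [h0]; norm_num
      refine ⟨by rw [e1]; norm_num, ?_⟩
      unfold O3 at h3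
      obtain ⟨k, hk⟩ := Int.fract_eq_zero_iff.mp h0
      have e2 : fr (-z.1 - z.2) = fr (-z.2) := by
        unfold fr
        rw [← hk, show -(k : ℝ) - z.2 = -z.2 - k by ring, Int.fract_sub_intCast]
      rw [e2] at h3
      by_cases hz2 : Int.fract z.2 = 0
      · unfold fr; rw [hz2]; norm_num
      · have e3 : fr (-z.2) = - fr z.2 := by
          unfold fr; rw [Int.fract_neg hz2]; ring
        rwa [e3, abs_neg] at h3
    have hz2 : Int.fract z.2 ≠ 0 := by
      intro h0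
      apply hc
      have e1 : |fr z.2| = 1 / 2 := by unfold fr; rw [h0]; norm_num
      refine ⟨?_, by rw [e1]; norm_num⟩
      unfold O3 at h3
      obtain ⟨k, hk⟩ := Int.fract_eq_zero_iff.mp h0
      have e2 : fr (-z.1 - z.2) = fr (-z.1) := by
        unfold fr
        rw [← hk, Int.fract_sub_intCast]
      have e3 : fr (-z.1) = - fr z.1 := by
        unfold fr; rw [Int.fract_neg hz1]; ring
      rwa [e2, e3, abs_neg] at h3
    apply good_congr (T' := fun w => CF g (1 * w.1 + (-⌊z.1⌋ - 1 / 2), 1 * w.2 + (-⌊z.2⌋ - 1 / 2))) _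
      (good_affine 1 _ _ (good_CF hg _))
    have ev1 : ∀ᶠ w in 𝓝 z, fr w.1 = w.1 - ⌊z.1⌋ - 1 / 2 :=
      continuous_fst.continuousAt.eventually (fr_eventually hz1)
    have ev2 : ∀ᶠ w in 𝓝 z, fr w.2 = w.2 - ⌊z.2⌋ - 1 / 2 :=
      continuous_snd.continuousAt.eventually (fr_eventually hz2)
    filter_upwards [ev1, ev2] with w h1 h2
    unfold T3
    rw [h1, h2]
    congr 2 <;> ring

theorem good_T1 {g : ℝ → ℝ → ℝ} (hg : Slope g) {z : ℝ × ℝ} (h1 : O1 z) : Good (T1 g) z :=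
  good_rot (good_T3 hg ((O3_rot z).2 h1))

theorem good_T2 {g : ℝ → ℝ → ℝ} (hg : Slope g) {z : ℝ × ℝ} (h2 : O2 z) : Good (T2 g) z :=
  good_rot (good_T1 hg ((O1_rot z).2 h2))

open Classical in
/-- the global field -/
noncomputable def EF (g : ℝ → ℝ → ℝ) (z : ℝ × ℝ) : ℝ × ℝ × ℝ :=
  if O3 z then T3 g z else if O1 z then T1 g z else T2 g z

theorem EF_3 {g : ℝ → ℝ → ℝ} {z : ℝ × ℝ} (h : O3 z) : EF g z = T3 g z := by
  simp [EF, h]

theorem EF_1 {g : ℝ → ℝ → ℝ} (hg : Slope g) {z : ℝ × ℝ} (h : O1 z) : EF g z = T1 g z := by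
  by_cases h3 : O3 z
  · rw [EF_3 h3, cons31 hg h3 h]
  · simp [EF, h, h3]

theorem EF_2 {g : ℝ → ℝ → ℝ} (hg : Slope g) {z : ℝ × ℝ} (h : O2 z) : EF g z = T2 g z := by
  by_cases h3 : O3 z
  · rw [EF_3 h3, cons23 hg h h3]
  · by_cases h1 : O1 z
    · rw [EF_1 hg h1, cons12 hg h1 h]
    · simp [EF, h1, h3]

theorem open_O3 {z : ℝ × ℝ} (h : O3 z) : ∀ᶠ w in 𝓝 z, O3 w := by
  have hc : Continuous (fun w : ℝ × ℝ => |fr (-w.1 - w.2)|) :=
    continuous_abs_fr.comp (by fun_prop : Continuous fun w : ℝ × ℝ => -w.1 - w.2)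
  exact hc.continuousAt.eventually (lt_mem_nhds h)

theorem open_O1 {z : ℝ × ℝ} (h : O1 z) : ∀ᶠ w in 𝓝 z, O1 w :=
  (continuous_abs_fr.comp continuous_fst).continuousAt.eventually (lt_mem_nhds h)

theorem open_O2 {z : ℝ × ℝ} (h : O2 z) : ∀ᶠ w in 𝓝 z, O2 w :=
  (continuous_abs_fr.comp continuous_snd).continuousAt.eventually (lt_mem_nhds h)

theorem good_EF {g : ℝ → ℝ → ℝ} (hg : Slope g) (z : ℝ × ℝ) : Good (EF g) z := by
  rcases cover z with h | h | h
  · exact good_congr ((open_O3 h).mono fun w hw => EF_3 hw) (good_T3 hg h)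
  · exact good_congr ((open_O1 h).mono fun w hw => EF_1 hg hw) (good_T1 hg h)
  · exact good_congr ((open_O2 h).mono fun w hw => EF_2 hg hw) (good_T2 hg h)

theorem EF_add_fst (g : ℝ → ℝ → ℝ) (x y : ℝ) : EF g (x + 1, y) = EF g (x, y) := by
  have a1 : fr (x + 1) = fr x := fr_add_one x
  have a2 : fr (-(x + 1) - y) = fr (-x - y) := by
    rw [show -(x + 1) - y = (-x - y) - 1 by ring, fr_sub_one]
  have a3 : fr (-y - (-(x + 1) - y)) = fr (-y - (-x - y)) := by
    rw [show -y - (-(x + 1) - y) = (-y - (-x - y)) + 1 by ring, fr_add_one]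
  simp only [EF, O3, O1, T3, T1, T2, rotM_apply, a1, a2, a3]

theorem EF_add_snd (g : ℝ → ℝ → ℝ) (x y : ℝ) : EF g (x, y + 1) = EF g (x, y) := by
  have a1 : fr (y + 1) = fr y := fr_add_one y
  have a2 : fr (-x - (y + 1)) = fr (-x - y) := by
    rw [show -x - (y + 1) = (-x - y) - 1 by ring, fr_sub_one]
  have a3 : fr (-(y + 1) - (-x - (y + 1))) = fr (-y - (-x - y)) := by
    rw [show -(y + 1) - (-x - (y + 1)) = -y - (-x - y) by ring]
  simp only [EF, O3, O1, T3, T1, T2, rotM_apply, a1, a2, a3]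

theorem CF_pos {g : ℝ → ℝ → ℝ} (hg : Slope g) (z : ℝ × ℝ) : 0 < (CF g z).1 := by
  obtain ⟨x, y⟩ := z
  rw [CF_apply]
  apply kap_pos
  have := n3_pos (hg.bound (24 * x) (24 * y)) (hg.bound (24 * y) (24 * x))
  linarith

theorem EF_pos {g : ℝ → ℝ → ℝ} (hg : Slope g) (z : ℝ × ℝ) : 0 < (EF g z).1 := by
  rcases cover z with h | h | h
  · rw [EF_3 h]; exact CF_pos hg _
  · rw [EF_1 hg h, T1, rotL_apply]; exact CF_pos hg _
  · rw [EF_2 hg h, T2, T1, rotL_apply, rotL_apply]; exact CF_pos hg _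

end Pool.Agent.helper41.Cubic
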