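import Pool.Agent.helper41.Cubic.Par

set_option autoImplicit false

open Function Set Filter Topology MeasureTheory intervalIntegral

namespace Pool.Agent.helper41.Cubic

theorem integral_eq_clamp {F : ℝ → ℝ} (cF : Continuous F) (hF : ∀ t, 1 ≤ |t| → F t = 0) (y : ℝ) :
    ∃ y', |y'| ≤ 1 ∧ ∫ t in (0 : ℝ)..y, F t = ∫ t in (0 : ℝ)..y', F t := by
  rcases le_total |y| 1 with h | h
  · exact ⟨y, h, rfl⟩
  · rcases le_total 0 y with h0 | h0
    · rw [abs_of_nonneg h0] at h
      refine ⟨1, by simp, ?_⟩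
      rw [← intervalIntegral.integral_add_adjacent_intervals (b := 1)
        (cF.intervalIntegrable _ _) (cF.intervalIntegrable _ _)]
      have : ∫ t in (1 : ℝ)..y, F t = ∫ t in (1 : ℝ)..y, (0 : ℝ) := by
        apply intervalIntegral.integral_congr
        intro t ht
        rw [uIcc_of_le h] at ht
        exact hF t (le_trans ht.1 (le_abs_self t))
      rw [this]; simp
    · rw [abs_of_nonpos h0] at h
      refine ⟨-1, by simp, ?_⟩
      rw [← intervalIntegral.integral_add_adjacent_intervals (b := -1)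
        (cF.intervalIntegrable _ _) (cF.intervalIntegrable _ _)]
      have : ∫ t in (-1 : ℝ)..y, F t = ∫ t in (-1 : ℝ)..y, (0 : ℝ) := by
        apply intervalIntegral.integral_congr
        intro t ht
        rw [uIcc_of_ge (by linarith)] at ht
        exact hF t (by rw [abs_of_nonpos (by linarith [ht.2])]; linarith [ht.2])
      rw [this]; simp

theorem abs_integral_le_of_supp {F : ℝ → ℝ} {C : ℝ} (cF : Continuous F)
    (hF : ∀ t, 1 ≤ |t| → F t = 0) (hC : ∀ t, |F t| ≤ C) (y : ℝ) :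
    |∫ t in (0 : ℝ)..y, F t| ≤ C := by
  obtain ⟨y', h1, h2⟩ := integral_eq_clamp cF hF y
  rw [h2]
  have hC0 : 0 ≤ C := le_trans (abs_nonneg _) (hC 0)
  have := intervalIntegral.norm_integral_le_of_norm_le_const (a := 0) (b := y') (C := C) (f := F)
    (fun t _ => hC t)
  simp only [Real.norm_eq_abs, sub_zero] at this
  exact this.trans (by nlinarith [abs_nonneg y'])

section

variable {a b : ℝ → ℝ → ℝ} {c : ℝ}

/-- the integrand -/
def rhs (a b : ℝ → ℝ → ℝ) (U : ℝ → ℝ → ℝ) (x t : ℝ) : ℝ := a x t * U x t + b x t * U t x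

theorem continuous_swap_uncurry {U : ℝ → ℝ → ℝ} (hU : Continuous (uncurry U)) :
    Continuous (fun z : ℝ × ℝ => U z.2 z.1) :=
  hU.comp (continuous_snd.prodMk continuous_fst)

theorem contDiff_swap_uncurry {n : WithTop ℕ∞} {U : ℝ → ℝ → ℝ} (hU : ContDiff ℝ n (uncurry U)) :
    ContDiff ℝ n (fun z : ℝ × ℝ => U z.2 z.1) :=
  hU.comp (contDiff_snd.prodMk contDiff_fst)

theorem continuous_rhs (ca : Continuous (uncurry a)) (cb : Continuous (uncurry b))
    {U : ℝ → ℝ → ℝ} (hU : Continuous (uncurry U)) : Continuous (uncurry (rhs a b U)) := by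
  have h1 : Continuous (fun z : ℝ × ℝ => a z.1 z.2) := ca
  have h2 : Continuous (fun z : ℝ × ℝ => b z.1 z.2) := cb
  have h3 : Continuous (fun z : ℝ × ℝ => U z.1 z.2) := hU
  exact (h1.mul h3).add (h2.mul (continuous_swap_uncurry hU))

theorem contDiff_rhs {n : WithTop ℕ∞} (ca : ContDiff ℝ n (uncurry a))
    (cb : ContDiff ℝ n (uncurry b))
    {U : ℝ → ℝ → ℝ} (hU : ContDiff ℝ n (uncurry U)) : ContDiff ℝ n (uncurry (rhs a b U)) := by
  have h1 : ContDiff ℝ n (fun z : ℝ × ℝ => a z.1 z.2) := ca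
  have h2 : ContDiff ℝ n (fun z : ℝ × ℝ => b z.1 z.2) := cb
  have h3 : ContDiff ℝ n (fun z : ℝ × ℝ => U z.1 z.2) := hU
  exact (h1.mul h3).add (h2.mul (contDiff_swap_uncurry hU))

theorem abs_J_rhs_le (ca : Continuous (uncurry a)) (cb : Continuous (uncurry b))
    (ha : ∀ x y, |a x y| ≤ c) (hb : ∀ x y, |b x y| ≤ c)
    (sa : ∀ x y, 1 ≤ |y| → a x y = 0) (sb : ∀ x y, 1 ≤ |y| → b x y = 0)
    {U : ℝ → ℝ → ℝ} (hU : Continuous (uncurry U)) {M : ℝ} (hM : ∀ x y, |U x y| ≤ M) (x y : ℝ) :
    |J (rhs a b U) x y| ≤ 2 * c * M := by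
  have cr := continuous_rhs ca cb hU
  unfold J
  apply abs_integral_le_of_supp (cr.comp (Continuous.prodMk_right x))
  · intro t ht
    simp [rhs, sa x t ht, sb x t ht]
  · intro t
    have h0 : 0 ≤ M := le_trans (abs_nonneg _) (hM 0 0)
    have hc0 : 0 ≤ c := le_trans (abs_nonneg _) (ha 0 0)
    show |a x t * U x t + b x t * U t x| ≤ 2 * c * M
    calc |a x t * U x t + b x t * U t x| ≤ |a x t * U x t| + |b x t * U t x| := abs_add_le _ _
      _ ≤ c * M + c * M := by
        rw [abs_mul, abs_mul]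
        exact add_le_add (mul_le_mul (ha _ _) (hM _ _) (abs_nonneg _) hc0)
          (mul_le_mul (hb _ _) (hM _ _) (abs_nonneg _) hc0)
      _ = 2 * c * M := by ring

open BoundedContinuousFunction in
/-- currying -/
def cu (U : (ℝ × ℝ) →ᵇ ℝ) : ℝ → ℝ → ℝ := fun x y => U (x, y)

open BoundedContinuousFunction in
/-- Existence of a continuous bounded solution with symmetry. -/
theorem volterra_cont (ca : Continuous (uncurry a)) (cb : Continuous (uncurry b))
    (hc : c ≤ 1 / 16)
    (ha : ∀ x y, |a x y| ≤ c) (hb : ∀ x y, |b x y| ≤ c)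
    (sa : ∀ x y, 1 ≤ |y| → a x y = 0) (sb : ∀ x y, 1 ≤ |y| → b x y = 0)
    (oa : ∀ x y, a (-x) (-y) = - a x y) (ob : ∀ x y, b (-x) (-y) = - b x y) :
    ∃ U : ℝ → ℝ → ℝ, Continuous (uncurry U) ∧ (∀ x y, U x y = 1 + J (rhs a b U) x y) ∧
      (∀ x y, U (-x) (-y) = U x y) ∧ (∀ x y, |U x y - 1| ≤ 1 / 4) := by
  have hc0 : 0 ≤ c := le_trans (abs_nonneg _) (ha 0 0)
  have hcu : ∀ U : (ℝ × ℝ) →ᵇ ℝ, Continuous (uncurry (cu U)) := fun U => U.continuous
  have hbd : ∀ (U : (ℝ × ℝ) →ᵇ ℝ) (x y : ℝ), |cu U x y| ≤ ‖U‖ := fun U x y => U.norm_coe_le_norm (x, y)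
  let T : ((ℝ × ℝ) →ᵇ ℝ) → ((ℝ × ℝ) →ᵇ ℝ) := fun U =>
    BoundedContinuousFunction.ofNormedAddCommGroup
      (fun z => 1 + uncurry (J (rhs a b (cu U))) z)
      (continuous_const.add (continuous_J (continuous_rhs ca cb (hcu U)))) (1 + 2 * c * ‖U‖) (by
        intro z
        rw [Real.norm_eq_abs]
        refine (abs_add_le _ _).trans ?_
        rw [abs_one]
        exact add_le_add le_rfl (abs_J_rhs_le ca cb ha hb sa sb (hcu U) (hbd U) z.1 z.2))
  have hTapp : ∀ U z, T U z = 1 + J (rhs a b (cu U)) z.1 z.2 := fun U z => rfl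
  have hlip : LipschitzWith (1 / 2) T := by
    apply LipschitzWith.of_dist_le_mul
    intro U V
    rw [BoundedContinuousFunction.dist_le (by positivity)]
    intro z
    rw [hTapp, hTapp, Real.dist_eq]
    have e1 : (1 + J (rhs a b (cu U)) z.1 z.2) - (1 + J (rhs a b (cu V)) z.1 z.2)
        = J (rhs a b (cu (U - V))) z.1 z.2 := by
      unfold J
      rw [add_sub_add_left_eq_sub, ← intervalIntegral.integral_sub]
      · apply intervalIntegral.integral_congr
        intro t _
        simp only [rhs, cu, BoundedContinuousFunction.coe_sub, Pi.sub_apply]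
        ring
      · exact ((continuous_rhs ca cb (hcu U)).comp (Continuous.prodMk_right _)).intervalIntegrable _ _
      · exact ((continuous_rhs ca cb (hcu V)).comp (Continuous.prodMk_right _)).intervalIntegrable _ _
    rw [e1]
    refine (abs_J_rhs_le ca cb ha hb sa sb (hcu _) (hbd _) z.1 z.2).trans ?_
    rw [dist_eq_norm]
    have : (0 : ℝ) ≤ ‖U - V‖ := norm_nonneg _
    push_cast
    nlinarith
  have hcon : ContractingWith (1 / 2) T := ⟨by
    rw [← NNReal.coe_lt_coe]; push_cast; norm_num, hlip⟩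
  let U := hcon.fixedPoint T
  have hfix : T U = U := hcon.fixedPoint_isFixedPt
  have hU : ∀ z, U z = 1 + J (rhs a b (cu U)) z.1 z.2 := fun z => by
    rw [← hTapp, hfix]
  refine ⟨cu U, hcu U, fun x y => hU (x, y), ?_, ?_⟩
  · -- symmetry
    let V : (ℝ × ℝ) →ᵇ ℝ := U.compContinuous ⟨fun z => -z, continuous_neg⟩
    have hV : ∀ x y, V (x, y) = U (-x, -y) := fun x y => rfl
    have hTV : T V = V := by
      ext z
      obtain ⟨x, y⟩ := z
      rw [hTapp, hV, hU]
      congr 1
      show ∫ t in (0 : ℝ)..y, rhs a b (cu V) x t = ∫ t in (0 : ℝ)..(-y), rhs a b (cu U) (-x) t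
      have e : ∫ t in (0 : ℝ)..(-y), rhs a b (cu U) (-x) t
          = - ∫ t in (0 : ℝ)..y, rhs a b (cu U) (-x) (-t) := by
        rw [intervalIntegral.integral_comp_neg (fun t => rhs a b (cu U) (-x) t), neg_zero,
          intervalIntegral.integral_symm]
      rw [e, ← intervalIntegral.integral_neg]
      apply intervalIntegral.integral_congr
      intro t _
      simp only [rhs, cu, hV, oa, ob]
      ring
    have : V = U := hcon.fixedPoint_unique hTV
    intro x y
    have h2 : V (x, y) = U (x, y) := by rw [this]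
    rw [hV] at h2
    exact h2
  · intro x y
    have hn : ‖U‖ ≤ 2 := by
      have h1 : ‖U‖ ≤ 1 + 2 * c * ‖U‖ := by
        rw [BoundedContinuousFunction.norm_le (by positivity)]
        intro z
        rw [hU z, Real.norm_eq_abs]
        refine (abs_add_le _ _).trans ?_
        rw [abs_one]
        exact add_le_add le_rfl (abs_J_rhs_le ca cb ha hb sa sb (hcu U) (hbd U) z.1 z.2)
      nlinarith [norm_nonneg U]
    have h3 : cu U x y - 1 = J (rhs a b (cu U)) x y := by
      have := hU (x, y)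
      simp only [cu] at this ⊢
      linarith
    rw [h3]
    refine (abs_J_rhs_le ca cb ha hb sa sb (hcu U) (hbd U) x y).trans ?_
    nlinarith [norm_nonneg U]

end

end Pool.Agent.helper41.Cubic
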