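import Pool.Agent.helper41.Cubic.Volt

set_option autoImplicit false

open Function Set Filter Topology MeasureTheory intervalIntegral

namespace Pool.Agent.helper41.Cubic

theorem smooth_of_fixed {a b U : ℝ → ℝ → ℝ}
    (ca : ContDiff ℝ ((⊤ : ℕ∞) : WithTop ℕ∞) (uncurry a))
    (cb : ContDiff ℝ ((⊤ : ℕ∞) : WithTop ℕ∞) (uncurry b))
    (cU : Continuous (uncurry U)) (hU : ∀ x y, U x y = 1 + J (rhs a b U) x y) :
    ContDiff ℝ ((⊤ : ℕ∞) : WithTop ℕ∞) (uncurry U) := by
  have ca0 : Continuous (uncurry a) := ca.continuous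
  have cb0 : Continuous (uncurry b) := cb.continuous
  have hy : ∀ x y, HasDerivAt (fun s => U x s) (rhs a b U x y) y := by
    intro x y
    have h := (J_snd (continuous_rhs ca0 cb0 cU) x y).const_add 1
    exact h.congr_of_eventuallyEq (Filter.Eventually.of_forall fun s => hU x s)
  -- the integrating factor
  set P : ℝ → ℝ → ℝ := J a with hP
  have cP : ContDiff ℝ ((⊤ : ℕ∞) : WithTop ℕ∞) (uncurry P) := contDiff_J ca
  have cP' : ContDiff ℝ ((⊤ : ℕ∞) : WithTop ℕ∞) (fun z : ℝ × ℝ => P z.1 z.2) := cP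
  set e : ℝ → ℝ → ℝ := fun x t => Real.exp (- P x t) * b x t with he
  have ce : ContDiff ℝ ((⊤ : ℕ∞) : WithTop ℕ∞) (uncurry e) := by
    have : ContDiff ℝ ((⊤ : ℕ∞) : WithTop ℕ∞) (fun z : ℝ × ℝ => Real.exp (- P z.1 z.2) * b z.1 z.2) :=
      (cP'.neg.exp).mul cb
    exact this
  have hne : ((⊤ : ℕ∞) : WithTop ℕ∞) ≠ 0 := by simp
  have cD1 : ∀ {f : ℝ → ℝ → ℝ}, ContDiff ℝ ((⊤ : ℕ∞) : WithTop ℕ∞) (uncurry f) →
      ContDiff ℝ ((⊤ : ℕ∞) : WithTop ℕ∞) (uncurry (D1 f)) := by
    intro f hf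
    rw [contDiff_infty] at *
    intro n
    exact contDiff_D1 (by exact_mod_cast hf (n + 1))
  set k : ℝ → ℝ → ℝ := fun x t => e x t * U t x with hk
  set k' : ℝ → ℝ → ℝ := fun x t => D1 e x t * U t x + e x t * rhs a b U t x with hk'
  have ck : Continuous (uncurry k) := by
    have : Continuous (fun z : ℝ × ℝ => e z.1 z.2 * U z.2 z.1) :=
      (show Continuous (fun z : ℝ × ℝ => e z.1 z.2) from ce.continuous).mul
        (continuous_swap_uncurry cU)
    exact this
  have ck' : Continuous (uncurry k') := by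
    have : Continuous (fun z : ℝ × ℝ => D1 e z.1 z.2 * U z.2 z.1 + e z.1 z.2 * rhs a b U z.2 z.1) :=
      ((show Continuous (fun z : ℝ × ℝ => D1 e z.1 z.2) from (cD1 ce).continuous).mul
        (continuous_swap_uncurry cU)).add
      ((show Continuous (fun z : ℝ × ℝ => e z.1 z.2) from ce.continuous).mul
        (continuous_swap_uncurry (continuous_rhs ca0 cb0 cU)))
    exact this
  have hkk : ∀ x t, HasDerivAt (fun s => k s t) (k' x t) x := by
    intro x t
    exact (deriv_fst_of_contDiff hne ce x t).mul (hy t x)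
  have form : ∀ x y, U x y = Real.exp (P x y) * (1 + J k x y) := by
    intro x y
    have hG : ∀ y, HasDerivAt (fun s => Real.exp (- P x s) * U x s - J k x s) 0 y := by
      intro y
      have h1 : HasDerivAt (fun s => P x s) (a x y) y := J_snd ca0 x y
      have h2 := (h1.neg.exp).mul (hy x y)
      have h3 := h2.sub (J_snd ck x y)
      refine HasDerivAt.congr_deriv h3 ?_
      show Real.exp (- P x y) * -a x y * U x y + Real.exp (- P x y) * rhs a b U x y - k x y = 0
      simp only [hk, he, rhs]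
      ring
    have hc := is_const_of_deriv_eq_zero (f := fun s => Real.exp (- P x s) * U x s - J k x s)
      (fun y => (hG y).differentiableAt) (fun y => (hG y).deriv) y 0
    have h0 : P x 0 = 0 := by simp [hP, J]
    have h1 : J k x 0 = 0 := by simp [J]
    have h2 : U x 0 = 1 := by rw [hU]; simp [J]
    simp only [h0, h1, h2, neg_zero, Real.exp_zero, mul_one, sub_zero] at hc
    have : Real.exp (-P x y) * U x y = 1 + J k x y := by linarith
    rw [← this, ← mul_assoc, ← Real.exp_add]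
    simp
  set R : ℝ → ℝ → ℝ := fun x y => Real.exp (P x y) * D1 P x y * (1 + J k x y) +
    Real.exp (P x y) * J k' x y with hR
  have hx : ∀ x y, HasDerivAt (fun s => U s y) (R x y) x := by
    intro x y
    have h1 := (deriv_fst_of_contDiff hne cP x y).exp
    have h2 := (J_fst hkk ck ck' x y).const_add 1
    have h3 := h1.mul h2
    exact h3.congr_of_eventuallyEq (Filter.Eventually.of_forall fun s => form s y)
  rw [contDiff_infty]
  intro n
  induction n with
  | zero => rw [Nat.cast_zero, contDiff_zero]; exact cU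
  | succ n ih =>
    have can : ContDiff ℝ n (uncurry a) := ca.of_le (by exact_mod_cast le_top)
    have cbn : ContDiff ℝ n (uncurry b) := cb.of_le (by exact_mod_cast le_top)
    have cen : ContDiff ℝ n (uncurry e) := ce.of_le (by exact_mod_cast le_top)
    have cDen : ContDiff ℝ n (uncurry (D1 e)) := (cD1 ce).of_le (by exact_mod_cast le_top)
    have cPn : ContDiff ℝ n (uncurry P) := cP.of_le (by exact_mod_cast le_top)
    have cDPn : ContDiff ℝ n (uncurry (D1 P)) := (cD1 cP).of_le (by exact_mod_cast le_top)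
    have cV : ContDiff ℝ n (uncurry (rhs a b U)) := contDiff_rhs can cbn ih
    have ckn : ContDiff ℝ n (uncurry k) := by
      have : ContDiff ℝ n (fun z : ℝ × ℝ => e z.1 z.2 * U z.2 z.1) :=
        (show ContDiff ℝ n (fun z : ℝ × ℝ => e z.1 z.2) from cen).mul
          (contDiff_swap_uncurry ih)
      exact this
    have ckn' : ContDiff ℝ n (uncurry k') := by
      have : ContDiff ℝ n
          (fun z : ℝ × ℝ => D1 e z.1 z.2 * U z.2 z.1 + e z.1 z.2 * rhs a b U z.2 z.1) :=
        ((show ContDiff ℝ n (fun z : ℝ × ℝ => D1 e z.1 z.2) from cDen).mul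
          (contDiff_swap_uncurry ih)).add
        ((show ContDiff ℝ n (fun z : ℝ × ℝ => e z.1 z.2) from cen).mul
          (contDiff_swap_uncurry cV))
      exact this
    have cR : ContDiff ℝ n (uncurry R) := by
      have hPz : ContDiff ℝ n (fun z : ℝ × ℝ => P z.1 z.2) := cPn
      have hDPz : ContDiff ℝ n (fun z : ℝ × ℝ => D1 P z.1 z.2) := cDPn
      have hJk : ContDiff ℝ n (fun z : ℝ × ℝ => J k z.1 z.2) := contDiff_J_nat n ckn
      have hJk' : ContDiff ℝ n (fun z : ℝ × ℝ => J k' z.1 z.2) := contDiff_J_nat n ckn'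
      have : ContDiff ℝ n (fun z : ℝ × ℝ => Real.exp (P z.1 z.2) * D1 P z.1 z.2 *
          (1 + J k z.1 z.2) + Real.exp (P z.1 z.2) * J k' z.1 z.2) :=
        ((hPz.exp.mul hDPz).mul (contDiff_const.add hJk)).add (hPz.exp.mul hJk')
      exact this
    have := contDiff_succ_of_coord hx hy cR cV
    exact_mod_cast this

/-- Main result on the linear characteristic problem. -/
theorem volterra {a b : ℝ → ℝ → ℝ} {c : ℝ}
    (ca : ContDiff ℝ ((⊤ : ℕ∞) : WithTop ℕ∞) (uncurry a))
    (cb : ContDiff ℝ ((⊤ : ℕ∞) : WithTop ℕ∞) (uncurry b))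
    (hc : c ≤ 1 / 16)
    (ha : ∀ x y, |a x y| ≤ c) (hb : ∀ x y, |b x y| ≤ c)
    (sa : ∀ x y, 1 ≤ |y| → a x y = 0) (sb : ∀ x y, 1 ≤ |y| → b x y = 0)
    (oa : ∀ x y, a (-x) (-y) = - a x y) (ob : ∀ x y, b (-x) (-y) = - b x y) :
    ∃ U : ℝ → ℝ → ℝ, ContDiff ℝ ((⊤ : ℕ∞) : WithTop ℕ∞) (uncurry U) ∧ (∀ x, U x 0 = 1) ∧
      (∀ x y, HasDerivAt (fun s => U x s) (a x y * U x y + b x y * U y x) y) ∧
      (∀ x y, U (-x) (-y) = U x y) ∧ (∀ x y, |U x y - 1| ≤ 1 / 4) := by
  obtain ⟨U, cU, hU, hs, hb'⟩ := volterra_cont ca.continuous cb.continuous hc ha hb sa sb oa ob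
  refine ⟨U, smooth_of_fixed ca cb cU hU, fun x => ?_, fun x y => ?_, hs, hb'⟩
  · rw [hU]; simp [J]
  · have h := (J_snd (continuous_rhs ca.continuous cb.continuous cU) x y).const_add 1
    exact h.congr_of_eventuallyEq (Filter.Eventually.of_forall fun s => hU x s)

end Pool.Agent.helper41.Cubic
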